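import Mathlib

set_option autoImplicit false

/-!
# Chains of fixed subgroups of automorphisms of right-angled Artin groups: definitions and
interface statements
-/

namespace Pool.Agent.FixChain

/-- The defining relations of the right-angled Artin group of `Γ`: adjacent vertices commute. -/
def rels {V : Type} (Γ : SimpleGraph V) : Set (FreeGroup V) :=
  {r | ∃ v w, Γ.Adj v w ∧
    r = FreeGroup.of v * FreeGroup.of w * (FreeGroup.of v)⁻¹ * (FreeGroup.of w)⁻¹}

/-- The right-angled Artin group of `Γ`. -/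
abbrev RAAG {V : Type} (Γ : SimpleGraph V) : Type := PresentedGroup (rels Γ)

/-- The generator of the right-angled Artin group given by a vertex. -/
def gen {V : Type} (Γ : SimpleGraph V) (v : V) : RAAG Γ := PresentedGroup.of v

/-- The subgroup of fixed points of an automorphism. -/
def Fix {G : Type} [Group G] (φ : MulAut G) : Subgroup G where
  carrier := {g | φ g = g}
  mul_mem' := by
    intro a b ha hb
    show φ (a * b) = a * b
    rw [map_mul, show φ a = a from ha, show φ b = b from hb]
  one_mem' := map_one φ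
  inv_mem' := by
    intro a ha
    show φ a⁻¹ = a⁻¹
    rw [map_inv, show φ a = a from ha]

theorem mem_Fix {G : Type} [Group G] {φ : MulAut G} {g : G} : g ∈ Fix φ ↔ φ g = g := Iff.rfl

/-- Matrices congruent to the identity modulo 6. -/
def OneMod6 {ι : Type} [Fintype ι] [DecidableEq ι] (M : Matrix ι ι ℤ) : Prop :=
  ∀ i j, (6 : ℤ) ∣ (M - 1) i j

/-- **Module A**: faithful integral representations of right-angled Artin groups. -/
def Stmt_Rep : Prop := ∀ (V : Type) [Finite V] (Γ : SimpleGraph V),
  ∃ (ι : Type) (_ : Fintype ι) (_ : DecidableEq ι) (ρ : RAAG Γ →* Matrix ι ι ℤ),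
    Function.Injective ρ ∧ ∀ g, OneMod6 (ρ g)

/-- `N` has finite index and every element of `G` which is periodic under some `ν ∈ N` is fixed
by `ν`. -/
def Good (G : Type) [Group G] (N : Subgroup (MulAut G)) : Prop :=
  N.FiniteIndex ∧ ∀ ν ∈ N, ∀ (g : G) (q : ℕ), 0 < q → (ν ^ q) g = g → ν g = g

/-- **Module B**: periodic points are fixed for a subgroup of finite index. Choose
`N = {ν | χ ∘ ν = χ for all χ : G →* Multiplicative (ZMod p), p = 2, 3}`. -/
def Stmt_Per : Prop := ∀ (G : Type) [Group G] [Group.FG G] (ι : Type) [Fintype ι] [DecidableEq ι]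
  (ρ : G →* Matrix ι ι ℤ), Function.Injective ρ → (∀ g, OneMod6 (ρ g)) →
    ∃ N : Subgroup (MulAut G), Good G N

/-- Chains of fixed subgroups have bounded cardinality. -/
def Bdd (G : Type) [Group G] : Prop :=
  ∃ B : ℕ, ∀ 𝒞 : Set (Subgroup G), (∀ H ∈ 𝒞, ∃ φ : MulAut G, H = Fix φ) →
    IsChain (· ≤ ·) 𝒞 → 𝒞.Finite ∧ 𝒞.ncard ≤ B

/-- **Module C**: the chain condition. -/
def Stmt_Chain : Prop := ∀ (G : Type) [Group G] [Group.FG G] (ι : Type) [Fintype ι]
  [DecidableEq ι] (ρ : G →* Matrix ι ι ℤ), Function.Injective ρ →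
    (∃ N : Subgroup (MulAut G), Good G N) → Bdd G

end Pool.Agent.FixChain
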