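import Mathlib
import Pool.Agent.FixChain.Stmts

set_option autoImplicit false
set_option linter.style.haveILetI false

/-!
# The chain condition for fixed subgroups: the algebra
-/

namespace Pool.Agent.FixChain

open Polynomial

section Periodic

variable {A : Type} [CommRing A]

/-- The preimage of a minimal prime under an automorphism is a minimal prime. -/
theorem comap_mem_minimalPrimes (σ : A ≃+* A) {p : Ideal A} (hp : p ∈ minimalPrimes A) :
    p.comap (σ : A →+* A) ∈ minimalPrimes A := by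
  rw [minimalPrimes_eq_minimals] at hp ⊢
  haveI := hp.1
  refine ⟨Ideal.IsPrime.comap _, ?_⟩
  intro q hq hqp x hx
  have h1 : (q.comap (σ.symm : A →+* A)) ≤ p := by
    intro y hy
    have h : σ (σ.symm y) ∈ p := hqp hy
    rwa [RingEquiv.apply_symm_apply] at h
  have h2 : p ≤ q.comap (σ.symm : A →+* A) := by
    haveI : q.IsPrime := hq
    exact hp.2 (Ideal.IsPrime.comap (σ.symm : A →+* A)) h1
  have h3 : σ x ∈ p := hx
  have h4 : σ.symm (σ x) ∈ q := h2 h3
  rwa [RingEquiv.symm_apply_apply] at h4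

/-- In a reduced ring with finitely many minimal primes, an element which modulo each minimal prime
is a root of a nonzero polynomial with coefficients fixed by `σ` is periodic under `σ`. -/
theorem exists_periodic [IsReduced A] [IsNoetherianRing A] (σ : A ≃+* A) (a : A)
    (h : ∀ p ∈ minimalPrimes A, ∃ P : A[X], P.map (Ideal.Quotient.mk p) ≠ 0 ∧
      (∀ n, σ (P.coeff n) = P.coeff n) ∧ P.eval a ∈ p) :
    ∃ q : ℕ, 0 < q ∧ (σ ^ q) a = a := by
  classical
  have hfin : (minimalPrimes A).Finite := minimalPrimes.finite_of_isNoetherianRing A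
  choose! P hP0 hPfix hPa using h
  have hpow : ∀ (n : ℕ) (c : A), σ c = c → (σ ^ n) c = c := by
    intro n c hc
    induction n with
    | zero => simp
    | succ n ih =>
      rw [pow_succ, RingAut.mul_apply, hc, ih]
  -- the orbit of `a` modulo a minimal prime is finite
  have key : ∀ p' ∈ minimalPrimes A,
      (Set.range (fun n : ℕ => (Ideal.Quotient.mk p') ((σ ^ n) a))).Finite := by
    intro p' hp'
    haveI : p'.IsPrime := Ideal.IsMinimalPrime.isPrime hp'
    have : (Set.range (fun n : ℕ => (Ideal.Quotient.mk p') ((σ ^ n) a))) ⊆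
        ⋃ p ∈ minimalPrimes A, (((P p).map (Ideal.Quotient.mk p')).roots.toFinset : Set _) := by
      rintro _ ⟨n, rfl⟩
      have hp := comap_mem_minimalPrimes (σ ^ n) hp'
      set p := p'.comap ((σ ^ n : A ≃+* A) : A →+* A) with hpdef
      simp only [Set.mem_iUnion]
      refine ⟨p, hp, ?_⟩
      simp only [Multiset.mem_toFinset, Finset.mem_coe]
      rw [Polynomial.mem_roots']
      constructor
      · intro h0
        apply hP0 p hp
        ext k
        rw [Polynomial.coeff_map, Polynomial.coeff_zero, Ideal.Quotient.eq_zero_iff_mem]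
        have h1 : (Ideal.Quotient.mk p') ((P p).coeff k) = 0 := by
          rw [← Polynomial.coeff_map, h0, Polynomial.coeff_zero]
        rw [Ideal.Quotient.eq_zero_iff_mem] at h1
        rw [hpdef, Ideal.mem_comap]
        have h2 : (((σ ^ n : A ≃+* A) : A →+* A)) ((P p).coeff k) = (P p).coeff k :=
          hpow n _ (hPfix p hp k)
        rw [h2]
        exact h1
      · have h1 := hPa p hp
        rw [hpdef, Ideal.mem_comap] at h1
        have h2 : (((σ ^ n : A ≃+* A) : A →+* A)) ((P p).eval a) =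
            (P p).eval ((σ ^ n) a) := by
          have hmap : (P p).map ((σ ^ n : A ≃+* A) : A →+* A) = P p := by
            ext k
            rw [Polynomial.coeff_map]
            exact hpow n _ (hPfix p hp k)
          rw [← Polynomial.eval₂_at_apply, ← Polynomial.eval_map, hmap]
          rfl
        rw [← hpdef, h2] at h1
        rw [Polynomial.IsRoot.def, Polynomial.eval_map, Polynomial.eval₂_hom]
        rw [Ideal.Quotient.eq_zero_iff_mem]
        exact h1
    refine Set.Finite.subset ?_ this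
    exact Set.Finite.biUnion hfin (fun p _ => Finset.finite_toSet _)
  haveI : Finite (minimalPrimes A) := hfin
  haveI : ∀ p : minimalPrimes A,
      Finite (Set.range (fun n : ℕ => (Ideal.Quotient.mk p.1) ((σ ^ n) a))) :=
    fun p => key p.1 p.2
  let F : ℕ → (∀ p : minimalPrimes A,
      (Set.range (fun n : ℕ => (Ideal.Quotient.mk p.1) ((σ ^ n) a)))) :=
    fun n p => ⟨_, n, rfl⟩
  obtain ⟨n, m, hnm, hF⟩ := Finite.exists_ne_map_eq_of_infinite F
  have main : ∀ n m : ℕ, n < m → F n = F m → ∃ q : ℕ, 0 < q ∧ (σ ^ q) a = a := by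
    intro n m hlt hF
    have h1 : (σ ^ n) a - (σ ^ m) a ∈ sInf (minimalPrimes A) := by
      rw [Ideal.mem_sInf]
      intro p hp
      have := congrFun hF ⟨p, hp⟩
      have h2 := congrArg Subtype.val this
      exact Ideal.Quotient.eq.mp h2
    have h2 : (σ ^ n) a - (σ ^ m) a = 0 := by
      have h3 : sInf (minimalPrimes A) = (⊥ : Ideal A) := by
        have := Ideal.sInf_minimalPrimes (I := (⊥ : Ideal A))
        rw [minimalPrimes, this]
        exact nilradical_eq_zero A
      rw [h3] at h1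
      exact h1
    refine ⟨m - n, by omega, ?_⟩
    have h3 : (σ ^ n) a = (σ ^ n) ((σ ^ (m - n)) a) := by
      rw [← RingAut.mul_apply, ← pow_add, Nat.add_sub_cancel' hlt.le]
      exact sub_eq_zero.mp h2
    exact ((σ ^ n).injective h3).symm
  rcases lt_or_gt_of_ne hnm with h | h
  · exact main n m h hF
  · exact main m n h hF.symm

end Periodic

section Rank

variable {A : Type} [CommRing A] [Algebra ℚ A]

instance faithful_quotient (p : Ideal A) [p.IsPrime] : FaithfulSMul ℚ (A ⧸ p) := inferInstance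

/-- The rank of a subset of `A` modulo a prime. -/
noncomputable def rk (p : Ideal A) [p.IsPrime] (E : Set A) : ℕ∞ :=
  (AlgebraicIndependent.matroid ℚ (A ⧸ p)).eRk (Ideal.Quotient.mk p '' E)

theorem rk_mono (p : Ideal A) [p.IsPrime] {E F : Set A} (h : E ⊆ F) : rk p E ≤ rk p F :=
  (AlgebraicIndependent.matroid ℚ (A ⧸ p)).eRk_mono (Set.image_mono h)

theorem rankFinite [Algebra.FiniteType ℚ A] (p : Ideal A) [p.IsPrime] :
    (AlgebraicIndependent.matroid ℚ (A ⧸ p)).RankFinite := by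
  rw [Matroid.rankFinite_iff_cRank_lt_aleph0, AlgebraicIndependent.matroid_cRank_eq]
  haveI : Algebra.FiniteType ℚ (A ⧸ p) :=
    Algebra.FiniteType.of_surjective (Ideal.Quotient.mkₐ ℚ p) (Ideal.Quotient.mkₐ_surjective ℚ p)
  exact trdeg_lt_aleph0_of_finiteType

theorem rk_lt_top [Algebra.FiniteType ℚ A] (p : Ideal A) [p.IsPrime] (E : Set A) :
    rk p E < ⊤ := by
  haveI := rankFinite p
  exact ((AlgebraicIndependent.matroid ℚ (A ⧸ p)).eRk_le_eRank _).trans_lt
    (Matroid.eRank_lt_top_iff.mpr this)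

theorem exists_poly [Algebra.FiniteType ℚ A] (p : Ideal A) [p.IsPrime] {E F : Set A} (h : E ⊆ F)
    (hr : rk p F ≤ rk p E) {a : A} (ha : a ∈ F) :
    ∃ P : A[X], P.map (Ideal.Quotient.mk p) ≠ 0 ∧
      (∀ n, P.coeff n ∈ Algebra.adjoin ℚ E) ∧ P.eval a ∈ p := by
  classical
  haveI := rankFinite p
  have h1 : (AlgebraicIndependent.matroid ℚ (A ⧸ p)).IsRkFinite (Ideal.Quotient.mk p '' E) :=
    Matroid.eRk_lt_top_iff.mp (rk_lt_top p E)
  have h2 := h1.closure_eq_closure_of_subset_of_eRk_ge_eRk (Set.image_mono h) hr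
  have h3 : Ideal.Quotient.mk p a ∈ (AlgebraicIndependent.matroid ℚ (A ⧸ p)).closure
      (Ideal.Quotient.mk p '' F) :=
    Matroid.mem_closure_of_mem' _ (Set.mem_image_of_mem _ ha) (Set.mem_univ _)
  rw [← h2, AlgebraicIndependent.matroid_closure_eq] at h3
  have h4 : IsAlgebraic (Algebra.adjoin ℚ (Ideal.Quotient.mk p '' E)) (Ideal.Quotient.mk p a) := h3
  obtain ⟨Q, hQ0, hQ⟩ := h4
  have h5 : ∀ c : (Algebra.adjoin ℚ (Ideal.Quotient.mk p '' E)),
      ∃ d ∈ Algebra.adjoin ℚ E, Ideal.Quotient.mk p d = c := by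
    intro c
    have hc := c.2
    have h6 : Algebra.adjoin ℚ (Ideal.Quotient.mk p '' E) =
        (Algebra.adjoin ℚ E).map (Ideal.Quotient.mkₐ ℚ p) := by
      rw [AlgHom.map_adjoin]
      rfl
    obtain ⟨d, hd, hd'⟩ := h6.le hc
    exact ⟨d, hd, hd'⟩
  choose d hd hdc using h5
  let P : A[X] := ∑ n ∈ Finset.range (Q.natDegree + 1), Polynomial.monomial n (d (Q.coeff n))
  have hPc : ∀ n, P.coeff n = if n < Q.natDegree + 1 then d (Q.coeff n) else 0 := by
    intro n
    simp only [P, Polynomial.finsetSum_coeff, Polynomial.coeff_monomial]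
    rw [Finset.sum_ite_eq' (Finset.range (Q.natDegree + 1)) n]
    simp only [Finset.mem_range]
  have hPm : P.map (Ideal.Quotient.mk p) = Q.map (algebraMap _ (A ⧸ p)) := by
    ext n
    rw [Polynomial.coeff_map, Polynomial.coeff_map, hPc]
    split_ifs with hn
    · rw [hdc]
      rfl
    · rw [Polynomial.coeff_eq_zero_of_natDegree_lt (by omega : Q.natDegree < n)]
      simp
  refine ⟨P, ?_, ?_, ?_⟩
  · rw [hPm]
    intro h0
    apply hQ0
    have hinj : Function.Injective
        (algebraMap (Algebra.adjoin ℚ (Ideal.Quotient.mk p '' E)) (A ⧸ p)) :=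
      Subtype.val_injective
    exact (Polynomial.map_eq_zero_iff hinj).mp h0
  · intro n
    rw [hPc]
    split_ifs
    · exact hd _
    · exact Subalgebra.zero_mem _
  · rw [← Ideal.Quotient.eq_zero_iff_mem, ← Polynomial.eval₂_at_apply, ← Polynomial.eval_map, hPm,
      Polynomial.eval_map]
    exact hQ

end Rank

section Coord

variable {G : Type} [Group G] {ι : Type} [Fintype ι] [DecidableEq ι] (ρ : G →* Matrix ι ι ℤ)

/-- The matrix coefficients as functions on the automorphism group. -/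
def cf (g : G) (i j : ι) : MulAut G → ℚ := fun φ => ((ρ (φ g) i j : ℤ) : ℚ)

theorem cf_mul (g h : G) (i j : ι) : cf ρ (g * h) i j = ∑ k, cf ρ g i k * cf ρ h k j := by
  funext φ
  simp only [cf, map_mul, Matrix.mul_apply, Finset.sum_apply, Pi.mul_apply]
  push_cast
  rfl

/-- The algebra generated by the matrix coefficients. -/
def coordAlg : Subalgebra ℚ (MulAut G → ℚ) := Algebra.adjoin ℚ {f | ∃ g i j, f = cf ρ g i j}

/-- The matrix coefficients as elements of the coordinate algebra. -/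
def xc (g : G) (i j : ι) : coordAlg ρ := ⟨cf ρ g i j, Algebra.subset_adjoin ⟨g, i, j, rfl⟩⟩

theorem finiteType [Group.FG G] : Algebra.FiniteType ℚ (coordAlg ρ) := by
  classical
  obtain ⟨S, hS⟩ := (Group.FG.out : (⊤ : Subgroup G).FG)
  rw [← Subalgebra.fg_iff_finiteType]
  let T : Set (MulAut G → ℚ) :=
    ⋃ s ∈ S, ⋃ i : ι, ⋃ j : ι, {cf ρ s i j, cf ρ s⁻¹ i j}
  have hT : T.Finite := by
    apply Set.Finite.biUnion (Finset.finite_toSet S)
    intro s _
    apply Set.finite_iUnion
    intro i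
    apply Set.finite_iUnion
    intro j
    exact (Set.finite_singleton _).insert _
  have key : ∀ g : G, (∀ i j, cf ρ g i j ∈ Algebra.adjoin ℚ T) ∧
      (∀ i j, cf ρ g⁻¹ i j ∈ Algebra.adjoin ℚ T) := by
    intro g
    have hg : g ∈ Subgroup.closure (S : Set G) := by rw [hS]; trivial
    induction hg using Subgroup.closure_induction with
    | mem x hx =>
      constructor
      · intro i j
        apply Algebra.subset_adjoin
        simp only [T, Set.mem_iUnion]
        exact ⟨x, hx, i, j, Or.inl rfl⟩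
      · intro i j
        apply Algebra.subset_adjoin
        simp only [T, Set.mem_iUnion]
        exact ⟨x, hx, i, j, Or.inr rfl⟩
    | one =>
      have h1 : ∀ i j, cf ρ (1 : G) i j ∈ Algebra.adjoin ℚ T := by
        intro i j
        have : cf ρ (1 : G) i j = algebraMap ℚ (MulAut G → ℚ) (if i = j then 1 else 0) := by
          funext φ
          simp only [cf, map_one, Matrix.one_apply, Pi.algebraMap_apply, Algebra.algebraMap_self,
            RingHom.id_apply]
          split_ifs <;> simp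
        rw [this]
        exact Subalgebra.algebraMap_mem _ _
      refine ⟨h1, ?_⟩
      rw [inv_one]
      exact h1
    | mul x y _ _ hx hy =>
      constructor
      · intro i j
        rw [cf_mul]
        exact Subalgebra.sum_mem _ (fun k _ => Subalgebra.mul_mem _ (hx.1 i k) (hy.1 k j))
      · intro i j
        rw [mul_inv_rev, cf_mul]
        exact Subalgebra.sum_mem _ (fun k _ => Subalgebra.mul_mem _ (hy.2 i k) (hx.2 k j))
    | inv x _ hx =>
      refine ⟨hx.2, ?_⟩
      rw [inv_inv]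
      exact hx.1
  refine ⟨hT.toFinset, ?_⟩
  rw [Set.Finite.coe_toFinset]
  apply le_antisymm
  · apply Algebra.adjoin_le
    intro f hf
    simp only [T, Set.mem_iUnion] at hf
    obtain ⟨s, _, i, j, hf⟩ := hf
    rcases hf with rfl | hf
    · exact (xc ρ s i j).2
    · rw [Set.mem_singleton_iff] at hf
      rw [hf]
      exact (xc ρ s⁻¹ i j).2
  · apply Algebra.adjoin_le
    rintro f ⟨g, i, j, rfl⟩
    exact (key g).1 i j

/-- Right translation on functions on the automorphism group. -/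
def trFun (ψ : MulAut G) : (MulAut G → ℚ) →ₐ[ℚ] (MulAut G → ℚ) where
  toFun f := fun φ => f (φ * ψ)
  map_one' := rfl
  map_mul' _ _ := rfl
  map_zero' := rfl
  map_add' _ _ := rfl
  commutes' _ := rfl

theorem trFun_cf (ψ : MulAut G) (g : G) (i j : ι) : trFun ψ (cf ρ g i j) = cf ρ (ψ g) i j := rfl

theorem trFun_mem (ψ : MulAut G) {f : MulAut G → ℚ} (hf : f ∈ coordAlg ρ) :
    trFun ψ f ∈ coordAlg ρ := by
  have : coordAlg ρ ≤ (coordAlg ρ).comap (trFun ψ) := by
    apply Algebra.adjoin_le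
    rintro _ ⟨g, i, j, rfl⟩
    show trFun ψ (cf ρ g i j) ∈ coordAlg ρ
    rw [trFun_cf]
    exact (xc ρ (ψ g) i j).2
  exact this hf

/-- Right translation on the coordinate algebra. -/
def tau (ψ : MulAut G) : coordAlg ρ ≃+* coordAlg ρ where
  toFun f := ⟨trFun ψ f.1, trFun_mem ρ ψ f.2⟩
  invFun f := ⟨trFun ψ⁻¹ f.1, trFun_mem ρ ψ⁻¹ f.2⟩
  left_inv f := by
    apply Subtype.ext
    funext φ
    show f.1 (φ * ψ⁻¹ * ψ) = f.1 φ
    rw [inv_mul_cancel_right]
  right_inv f := by
    apply Subtype.ext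
    funext φ
    show f.1 (φ * ψ * ψ⁻¹) = f.1 φ
    rw [mul_inv_cancel_right]
  map_mul' _ _ := rfl
  map_add' _ _ := rfl

theorem tau_xc (ψ : MulAut G) (g : G) (i j : ι) : tau ρ ψ (xc ρ g i j) = xc ρ (ψ g) i j := rfl

theorem tau_pow_xc (ψ : MulAut G) (n : ℕ) (g : G) (i j : ι) :
    (tau ρ ψ ^ n) (xc ρ g i j) = xc ρ ((ψ ^ n) g) i j := by
  induction n generalizing g with
  | zero => rfl
  | succ n ih =>
    rw [pow_succ, RingAut.mul_apply, tau_xc, ih, pow_succ, MulAut.mul_apply]

theorem eq_of_xc_eq (hρ : Function.Injective ρ) {g h : G} (H : ∀ i j, xc ρ g i j = xc ρ h i j) :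
    g = h := by
  apply hρ
  ext i j
  have h1 := congrFun (congrArg Subtype.val (H i j)) 1
  have h2 : ((ρ g i j : ℤ) : ℚ) = ((ρ h i j : ℤ) : ℚ) := h1
  exact_mod_cast h2

instance isReduced_coordAlg : IsReduced (coordAlg ρ) :=
  isReduced_of_injective (coordAlg ρ).val Subtype.val_injective

/-- The entries of the elements of a subgroup. -/
def ent (F : Subgroup G) : Set (coordAlg ρ) := {f | ∃ g ∈ F, ∃ i j, f = xc ρ g i j}

theorem ent_mono {F F' : Subgroup G} (h : F ≤ F') : ent ρ F ⊆ ent ρ F' := by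
  rintro _ ⟨g, hg, i, j, rfl⟩
  exact ⟨g, h hg, i, j, rfl⟩

/-- **The main step**: let `F₂ ≤ F₁` be subgroups with equal ranks, and let `ν` fix `F₂` pointwise.
If all `ν`-periodic elements are fixed by `ν` then `ν` fixes `F₁` pointwise. -/
theorem fixes_of_rk_le [Group.FG G] (hρ : Function.Injective ρ) (ν : MulAut G)
    (hper : ∀ (g : G) (q : ℕ), 0 < q → (ν ^ q) g = g → ν g = g)
    {F₁ F₂ : Subgroup G} (hle : F₂ ≤ F₁) (hν : ∀ g ∈ F₂, ν g = g)
    (hrk : ∀ (p : Ideal (coordAlg ρ)) [p.IsPrime], p ∈ minimalPrimes (coordAlg ρ) →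
      rk p (ent ρ F₁) ≤ rk p (ent ρ F₂)) :
    ∀ g ∈ F₁, ν g = g := by
  classical
  haveI := finiteType ρ
  haveI : IsNoetherianRing (coordAlg ρ) := Algebra.FiniteType.isNoetherianRing ℚ _
  intro g hg
  have hfix : ∀ c ∈ Algebra.adjoin ℚ (ent ρ F₂), tau ρ ν c = c := by
    intro c hc
    induction hc using Algebra.adjoin_induction with
    | mem x hx =>
      obtain ⟨h, hh, i, j, rfl⟩ := hx
      rw [tau_xc, hν h hh]
    | algebraMap r => rfl
    | add x y _ _ hx hy => rw [map_add, hx, hy]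
    | mul x y _ _ hx hy => rw [map_mul, hx, hy]
  have hq : ∀ i j, ∃ q : ℕ, 0 < q ∧ (tau ρ ν ^ q) (xc ρ g i j) = xc ρ g i j := by
    intro i j
    apply exists_periodic
    intro p hp
    haveI : p.IsPrime := Ideal.IsMinimalPrime.isPrime hp
    obtain ⟨P, hP0, hPc, hPa⟩ := exists_poly p (ent_mono ρ hle) (hrk p hp)
      (a := xc ρ g i j) ⟨g, hg, i, j, rfl⟩
    exact ⟨P, hP0, fun n => hfix _ (hPc n), hPa⟩
  choose q hq0 hqe using hq
  have hpow : ∀ i j, ∀ m, (tau ρ ν ^ (q i j * m)) (xc ρ g i j) = xc ρ g i j := by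
    intro i j m
    rw [pow_mul]
    induction m with
    | zero => rfl
    | succ m ih => rw [pow_succ, RingAut.mul_apply, hqe, ih]
  have h1 : (ν ^ (∏ i, ∏ j, q i j)) g = g := by
    apply eq_of_xc_eq ρ hρ
    intro i j
    rw [← tau_pow_xc]
    have hdvd : q i j ∣ ∏ i, ∏ j, q i j :=
      (Finset.dvd_prod_of_mem (fun j => q i j) (Finset.mem_univ j)).trans
        (Finset.dvd_prod_of_mem (fun i => ∏ j, q i j) (Finset.mem_univ i))
    obtain ⟨m, hm⟩ := hdvd
    rw [hm]
    exact hpow i j m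
  exact hper g _ (Finset.prod_pos fun i _ => Finset.prod_pos fun j _ => hq0 i j) h1

end Coord

/-- The pointwise stabilizer of a subgroup in the automorphism group. -/
def stab {G : Type} [Group G] (H : Subgroup G) : Set (MulAut G) := {φ | ∀ h ∈ H, φ h = h}

theorem stab_anti {G : Type} [Group G] {H K : Subgroup G} (h : H ≤ K) : stab K ⊆ stab H :=
  fun _ hφ g hg => hφ g (h hg)

/-- The subgroup of elements fixed by all automorphisms in a set. -/
def FixS {G : Type} [Group G] (S : Set (MulAut G)) : Subgroup G := ⨅ φ ∈ S, Fix φ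

theorem mem_FixS {G : Type} [Group G] {S : Set (MulAut G)} {g : G} :
    g ∈ FixS S ↔ ∀ φ ∈ S, φ g = g := by
  simp only [FixS, Subgroup.mem_iInf, mem_Fix]

theorem FixS_singleton {G : Type} [Group G] (φ : MulAut G) : FixS {φ} = Fix φ := by
  ext g
  simp [mem_FixS, mem_Fix]

/-- Chains of fixed subgroups of arbitrary sets of automorphisms have bounded cardinality. -/
def BddS (G : Type) [Group G] : Prop :=
  ∃ B : ℕ, ∀ 𝒞 : Set (Subgroup G), (∀ H ∈ 𝒞, ∃ S : Set (MulAut G), H = FixS S) →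
    IsChain (· ≤ ·) 𝒞 → 𝒞.Finite ∧ 𝒞.ncard ≤ B

/-- The chain condition for fixed subgroups of arbitrary sets of automorphisms. -/
theorem ChainS (G : Type) [Group G] [Group.FG G] (ι : Type) [Fintype ι] [DecidableEq ι]
    (ρ : G →* Matrix ι ι ℤ) (hρ : Function.Injective ρ)
    (hgood : ∃ N : Subgroup (MulAut G), Good G N) : BddS G := by
  classical
  obtain ⟨N, hNfin, hN⟩ := hgood
  haveI := hNfin
  haveI := finiteType ρ
  haveI : IsNoetherianRing (coordAlg ρ) := Algebra.FiniteType.isNoetherianRing ℚ _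
  have hfin : (minimalPrimes (coordAlg ρ)).Finite := minimalPrimes.finite_of_isNoetherianRing _
  haveI : Fintype (minimalPrimes (coordAlg ρ)) := hfin.fintype
  haveI hprime : ∀ p : minimalPrimes (coordAlg ρ), p.1.IsPrime :=
    fun p => Ideal.IsMinimalPrime.isPrime p.2
  haveI : Finite (MulAut G ⧸ N) := Subgroup.finite_quotient_of_finiteIndex
  let r : Subgroup G → ℕ := fun F => ∑ p : minimalPrimes (coordAlg ρ), (rk p.1 (ent ρ F)).toNat
  let R : ℕ := r ⊤
  have hmono : ∀ {E F : Set (coordAlg ρ)} (p : minimalPrimes (coordAlg ρ)), E ⊆ F →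
      (rk p.1 E).toNat ≤ (rk p.1 F).toNat := by
    intro E F p h
    exact ENat.toNat_le_toNat (rk_mono p.1 h) (rk_lt_top p.1 F).ne
  have hrR : ∀ F, r F ≤ R := fun F =>
    Finset.sum_le_sum fun p _ => hmono p (ent_mono ρ le_top)
  let im : Subgroup G → Set (MulAut G ⧸ N) := fun H => QuotientGroup.mk '' stab H
  let M : ℕ := Nat.card (MulAut G ⧸ N)
  have him : ∀ H, (im H).ncard ≤ M := fun H => by
    have := Set.ncard_le_ncard (Set.subset_univ (im H)) Set.finite_univ
    rwa [Set.ncard_univ] at this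
  refine ⟨(M + 1) * (R + 1), ?_⟩
  intro 𝒞 h𝒞 hchain
  let f : Subgroup G → Fin (M + 1) × Fin (R + 1) := fun H =>
    (⟨(im H).ncard, Nat.lt_succ_of_le (him H)⟩, ⟨r H, Nat.lt_succ_of_le (hrR H)⟩)
  have key : ∀ H₁ ∈ 𝒞, ∀ H₂ ∈ 𝒞, H₂ ≤ H₁ → f H₁ = f H₂ → H₁ ≤ H₂ := by
    intro H₁ h₁ H₂ h₂ hle hf
    have hf1 : (im H₁).ncard = (im H₂).ncard := congrArg (fun x => (Prod.fst x).val) hf
    have hf2 : r H₁ = r H₂ := congrArg (fun x => (Prod.snd x).val) hf
    have him12 : im H₁ = im H₂ :=
      Set.eq_of_subset_of_ncard_le (Set.image_mono (stab_anti hle)) hf1.ge (Set.toFinite _)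
    have hr : ∀ p : minimalPrimes (coordAlg ρ),
        (rk p.1 (ent ρ H₂)).toNat = (rk p.1 (ent ρ H₁)).toNat := by
      have := (Finset.sum_eq_sum_iff_of_le (s := Finset.univ)
        (f := fun p : minimalPrimes (coordAlg ρ) => (rk p.1 (ent ρ H₂)).toNat)
        (g := fun p : minimalPrimes (coordAlg ρ) => (rk p.1 (ent ρ H₁)).toNat)
        (fun p _ => hmono p (ent_mono ρ hle))).mp hf2.symm
      exact fun p => this p (Finset.mem_univ p)
    obtain ⟨S, rfl⟩ := h𝒞 H₂ h₂
    intro g hg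
    rw [mem_FixS]
    intro φ₂ hφ₂
    have hφ₂' : φ₂ ∈ stab (FixS S) := fun h hh => mem_FixS.mp hh φ₂ hφ₂
    have h3 : (QuotientGroup.mk φ₂ : MulAut G ⧸ N) ∈ im H₁ := by
      rw [him12]
      exact ⟨φ₂, hφ₂', rfl⟩
    obtain ⟨φ₁, hφ₁, hφ⟩ := h3
    rw [QuotientGroup.eq] at hφ
    have h4 : (φ₁⁻¹ * φ₂) g = g := by
      refine fixes_of_rk_le ρ hρ (φ₁⁻¹ * φ₂) (fun g q hq hg => hN _ hφ g q hq hg) hle ?_ ?_ g hg
      · intro h hh
        rw [MulAut.mul_apply, hφ₂' h hh, MulAut.inv_apply, MulEquiv.symm_apply_eq]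
        exact (hφ₁ h (hle hh)).symm
      · intro p _ hp
        have h1 : (rk p (ent ρ (FixS S))).toNat = (rk p (ent ρ H₁)).toNat := hr ⟨p, hp⟩
        rw [← ENat.natCast_toNat (rk_lt_top p (ent ρ H₁)).ne, ← h1,
          ENat.natCast_toNat (rk_lt_top p _).ne]
    have h5 : φ₁ ((φ₁⁻¹ * φ₂) g) = φ₂ g := by
      rw [MulAut.mul_apply, MulAut.inv_apply, MulEquiv.apply_symm_apply]
    rw [← h5, h4]
    exact hφ₁ g hg
  have hinj : Set.InjOn f 𝒞 := by
    intro H₁ h₁ H₂ h₂ hf
    rcases hchain.total h₁ h₂ with h | h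
    · exact le_antisymm h (key H₂ h₂ H₁ h₁ h hf.symm)
    · exact le_antisymm (key H₁ h₁ H₂ h₂ h hf) h
  have hfin𝒞 : 𝒞.Finite := Set.Finite.of_injOn (t := Set.univ) (fun _ _ => trivial) hinj
    Set.finite_univ
  refine ⟨hfin𝒞, ?_⟩
  have h1 : 𝒞.ncard ≤ (Set.univ : Set (Fin (M + 1) × Fin (R + 1))).ncard :=
    Set.ncard_le_ncard_of_injOn f (fun _ _ => trivial) hinj Set.finite_univ
  rw [Set.ncard_univ, Nat.card_prod, Nat.card_fin, Nat.card_fin] at h1
  exact h1

/-- A bound for chains of fixed subgroups of sets of automorphisms gives one for chains of fixed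
subgroups of single automorphisms. -/
theorem BddS.bdd {G : Type} [Group G] (h : BddS G) : Bdd G := by
  obtain ⟨B, hB⟩ := h
  refine ⟨B, fun 𝒞 h𝒞 hc => hB 𝒞 ?_ hc⟩
  intro H hH
  obtain ⟨φ, hφ⟩ := h𝒞 H hH
  exact ⟨{φ}, by rw [hφ, FixS_singleton]⟩

/-- **Module C**. -/
theorem Chain_proof : Stmt_Chain := by
  intro G _ _ ι _ _ ρ hρ hN
  exact (ChainS G ι ρ hρ hN).bdd

end Pool.Agent.FixChain
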