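import Mathlib
import Pool.Agent.FixChain.Chain

set_option autoImplicit false
set_option linter.style.haveILetI false

/-!
# Consequences of the chain condition
-/

namespace Pool.Agent.FixChain

variable {G : Type} [Group G]

/-- The fixed subgroups of sets of automorphisms. -/
def IsFixS (H : Subgroup G) : Prop := ∃ S : Set (MulAut G), H = FixS S

theorem BddS.finite_of_isChain (h : BddS G) {𝒞 : Set (Subgroup G)} (h𝒞 : ∀ H ∈ 𝒞, IsFixS H)
    (hc : IsChain (· ≤ ·) 𝒞) : 𝒞.Finite := by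
  obtain ⟨B, hB⟩ := h
  exact (hB 𝒞 h𝒞 hc).1

/-- Every nonempty family of fixed subgroups has a minimal element. -/
theorem BddS.exists_minimal (h : BddS G) {𝒟 : Set (Subgroup G)} (h𝒟 : ∀ H ∈ 𝒟, IsFixS H)
    (hne : 𝒟.Nonempty) : ∃ H ∈ 𝒟, ∀ K ∈ 𝒟, K ≤ H → K = H := by
  have hwf : WellFounded (fun a b : {H : Subgroup G // IsFixS H} => a < b) := by
    rw [RelEmbedding.wellFounded_iff_isEmpty]
    refine ⟨fun f => ?_⟩
    have h1 : (Set.range (fun n => (f n).1)).Finite := by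
      apply h.finite_of_isChain
      · rintro _ ⟨n, rfl⟩
        exact (f n).2
      · rintro _ ⟨n, rfl⟩ _ ⟨m, rfl⟩ _
        rcases lt_trichotomy n m with hnm | rfl | hnm
        · right
          exact (f.map_rel_iff.mpr hnm).le
        · left
          exact le_rfl
        · left
          exact (f.map_rel_iff.mpr hnm).le
    have h2 : Function.Injective (fun n => (f n).1) := fun n m hnm =>
      f.injective (Subtype.ext hnm)
    exact Set.infinite_range_of_injective h2 h1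
  obtain ⟨H₀, hH₀⟩ := hne
  obtain ⟨m, hm, hmin⟩ := hwf.has_min {H | H.1 ∈ 𝒟} ⟨⟨H₀, h𝒟 H₀ hH₀⟩, hH₀⟩
  refine ⟨m.1, hm, fun K hK hKm => ?_⟩
  by_contra hne'
  exact hmin ⟨K, h𝒟 K hK⟩ hK (lt_of_le_of_ne hKm (fun h => hne' (congrArg Subtype.val h)))

/-- Every nonempty family of fixed subgroups has a maximal element. -/
theorem BddS.exists_maximal (h : BddS G) {𝒟 : Set (Subgroup G)} (h𝒟 : ∀ H ∈ 𝒟, IsFixS H)
    (hne : 𝒟.Nonempty) : ∃ H ∈ 𝒟, ∀ K ∈ 𝒟, H ≤ K → K = H := by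
  have hwf : WellFounded (fun a b : {H : Subgroup G // IsFixS H} => b < a) := by
    rw [RelEmbedding.wellFounded_iff_isEmpty]
    refine ⟨fun f => ?_⟩
    have h1 : (Set.range (fun n => (f n).1)).Finite := by
      apply h.finite_of_isChain
      · rintro _ ⟨n, rfl⟩
        exact (f n).2
      · rintro _ ⟨n, rfl⟩ _ ⟨m, rfl⟩ _
        rcases lt_trichotomy n m with hnm | rfl | hnm
        · left
          exact (f.map_rel_iff.mpr hnm).le
        · left
          exact le_rfl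
        · right
          exact (f.map_rel_iff.mpr hnm).le
    have h2 : Function.Injective (fun n => (f n).1) := fun n m hnm =>
      f.injective (Subtype.ext hnm)
    exact Set.infinite_range_of_injective h2 h1
  obtain ⟨H₀, hH₀⟩ := hne
  obtain ⟨m, hm, hmin⟩ := hwf.has_min {H | H.1 ∈ 𝒟} ⟨⟨H₀, h𝒟 H₀ hH₀⟩, hH₀⟩
  refine ⟨m.1, hm, fun K hK hKm => ?_⟩
  by_contra hne'
  exact hmin ⟨K, h𝒟 K hK⟩ hK (lt_of_le_of_ne hKm (fun h => hne' (congrArg Subtype.val h).symm))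

theorem FixS_anti {S T : Set (MulAut G)} (h : S ⊆ T) : FixS T ≤ FixS S := by
  intro g hg
  rw [mem_FixS] at hg ⊢
  exact fun φ hφ => hg φ (h hφ)

/-- The fixed subgroup of a set of automorphisms is the fixed subgroup of a finite subset. -/
theorem BddS.exists_finite (h : BddS G) (S : Set (MulAut G)) :
    ∃ T ⊆ S, T.Finite ∧ FixS T = FixS S := by
  obtain ⟨H, ⟨T, hTS, hT, rfl⟩, hmin⟩ := h.exists_minimal
    (𝒟 := {H | ∃ T ⊆ S, T.Finite ∧ H = FixS T})
    (by rintro _ ⟨T, _, _, rfl⟩; exact ⟨T, rfl⟩) ⟨FixS ∅, ∅, Set.empty_subset _, Set.finite_empty, rfl⟩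
  refine ⟨T, hTS, hT, le_antisymm ?_ (FixS_anti hTS)⟩
  intro g hg
  rw [mem_FixS]
  intro φ hφ
  have h1 := hmin (FixS (insert φ T))
    ⟨insert φ T, Set.insert_subset hφ hTS, hT.insert φ, rfl⟩ (FixS_anti (Set.subset_insert _ _))
  rw [← h1] at hg
  exact mem_FixS.mp hg φ (Set.mem_insert _ _)

/-- Every subgroup `H` has a finitely generated subgroup `K` such that every automorphism fixing
`K` pointwise fixes `H` pointwise. -/
theorem BddS.exists_fg (h : BddS G) (H : Subgroup G) :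
    ∃ K ≤ H, K.FG ∧ ∀ φ : MulAut G, (∀ g ∈ K, φ g = g) → ∀ g ∈ H, φ g = g := by
  obtain ⟨_, ⟨K, hKH, hK, rfl⟩, hmax⟩ := h.exists_maximal
    (𝒟 := {L | ∃ K ≤ H, K.FG ∧ L = FixS (stab K)})
    (by rintro _ ⟨K, _, _, rfl⟩; exact ⟨_, rfl⟩)
    ⟨FixS (stab ⊥), ⊥, bot_le, ⟨∅, by rw [Finset.coe_empty, Subgroup.closure_empty]⟩,
      rfl⟩
  refine ⟨K, hKH, hK, ?_⟩
  intro φ hφ g hg
  have hfg : (K ⊔ Subgroup.zpowers g).FG :=
    hK.sup ⟨{g}, by rw [Finset.coe_singleton, Subgroup.zpowers_eq_closure]⟩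
  have h1 := hmax (FixS (stab (K ⊔ Subgroup.zpowers g)))
    ⟨K ⊔ Subgroup.zpowers g, sup_le hKH (by rwa [Subgroup.zpowers_le]), hfg, rfl⟩
    (FixS_anti (stab_anti le_sup_left))
  have h2 : g ∈ FixS (stab (K ⊔ Subgroup.zpowers g)) := by
    rw [mem_FixS]
    intro ψ hψ
    exact hψ g ((le_sup_right : _ ≤ K ⊔ Subgroup.zpowers g) (Subgroup.mem_zpowers g))
  rw [h1] at h2
  exact mem_FixS.mp h2 φ hφ

end Pool.Agent.FixChain
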