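import Pool.Agent.FixChain.Stmts

set_option autoImplicit false

/-!
# Periodic points are fixed (module B, helper36)
-/

namespace Pool.Agent.FixChain.PerB

section PGroup

variable {P : Type} [Group P]

theorem coatom_char [Finite P] {p : ℕ} [Fact p.Prime] (hP : IsPGroup p P) (M : Subgroup P)
    (hM : IsCoatom M) : ∃ χ : P →* Multiplicative (ZMod p), χ.ker = M := by
  have : Group.IsNilpotent P := hP.isNilpotent
  have hN : M.Normal := by
    have h := (Group.isNilpotent_of_finite_tfae (G := P)).out 0 2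
    exact (h.mp inferInstance) M hM
  obtain ⟨x, hx⟩ : ∃ x, x ∉ M := by
    by_contra h
    push Not at h
    exact hM.1 (by rw [eq_top_iff]; intro x _; exact h x)
  have key : ∀ z : P, z ∉ M → M ⊔ Subgroup.zpowers z = ⊤ := by
    intro z hz
    apply hM.2
    refine lt_of_le_of_ne le_sup_left ?_
    intro he
    apply hz
    rw [he]
    exact (le_sup_right : Subgroup.zpowers z ≤ _) (Subgroup.mem_zpowers z)
  have gen : ∀ z : P, z ∉ M → ∀ y : P ⧸ M, y ∈ Subgroup.zpowers (QuotientGroup.mk z : P ⧸ M) := by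
    intro z hz y
    obtain ⟨y, rfl⟩ := QuotientGroup.mk_surjective y
    have hy : y ∈ M ⊔ Subgroup.zpowers z := by rw [key z hz]; trivial
    rw [Subgroup.mem_sup_of_normal_left] at hy
    obtain ⟨m, hm, w, hw, rfl⟩ := hy
    obtain ⟨k, rfl⟩ := Subgroup.mem_zpowers_iff.1 hw
    rw [Subgroup.mem_zpowers_iff]
    refine ⟨k, ?_⟩
    have : (QuotientGroup.mk (m * z ^ k) : P ⧸ M) = QuotientGroup.mk m * QuotientGroup.mk (z ^ k) :=
      rfl
    rw [this, (QuotientGroup.eq_one_iff m).2 hm, one_mul]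
    rfl
  have hQ : IsPGroup p (P ⧸ M) := hP.to_quotient M
  have hxp : x ^ p ∈ M := by
    by_contra hxp
    have h1 := gen _ hxp (QuotientGroup.mk x)
    obtain ⟨k, hk⟩ := Subgroup.mem_zpowers_iff.1 h1
    have hk' : (QuotientGroup.mk x : P ⧸ M) ^ ((p : ℤ) * k - 1) = 1 := by
      rw [zpow_sub, zpow_mul, zpow_natCast, zpow_one]
      have : (QuotientGroup.mk x : P ⧸ M) ^ p = QuotientGroup.mk (x ^ p) := rfl
      rw [this, hk, mul_inv_cancel]
    obtain ⟨n, hn⟩ := hQ (QuotientGroup.mk x)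
    have hcop : IsCoprime ((p : ℤ) * k - 1) ((p : ℤ) ^ n) := by
      apply IsCoprime.pow_right
      exact ⟨-1, k, by ring⟩
    obtain ⟨a, b, hab⟩ := hcop
    have h2 : (QuotientGroup.mk x : P ⧸ M) = 1 := by
      calc (QuotientGroup.mk x : P ⧸ M) = (QuotientGroup.mk x : P ⧸ M) ^ (1 : ℤ) := (zpow_one _).symm
        _ = (QuotientGroup.mk x : P ⧸ M) ^ ((p * k - 1) * a + (p : ℤ) ^ n * b) := by
            congr 1; rw [mul_comm _ a, mul_comm _ b]; exact hab.symm
        _ = 1 := by
            rw [zpow_add, zpow_mul, hk', one_zpow, one_mul, zpow_mul]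
            have : (QuotientGroup.mk x : P ⧸ M) ^ ((p : ℤ) ^ n) =
                (QuotientGroup.mk x : P ⧸ M) ^ (p ^ n : ℕ) := by
              rw [← zpow_natCast, Nat.cast_pow]
            rw [this, hn, one_zpow]
    exact hx ((QuotientGroup.eq_one_iff x).1 h2)
  have hne : (QuotientGroup.mk x : P ⧸ M) ≠ 1 := fun h => hx ((QuotientGroup.eq_one_iff x).1 h)
  have hord : orderOf (QuotientGroup.mk x : P ⧸ M) = p := by
    apply orderOf_eq_prime _ hne
    exact (QuotientGroup.eq_one_iff (x ^ p)).2 hxp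
  have hcard : Nat.card (P ⧸ M) = p := by
    rw [← orderOf_eq_card_of_forall_mem_zpowers (gen x hx), hord]
  have hcyc : IsCyclic (P ⧸ M) := ⟨⟨QuotientGroup.mk x, gen x hx⟩⟩
  have e := zmodCyclicMulEquiv hcyc
  rw [hcard] at e
  refine ⟨e.symm.toMonoidHom.comp (QuotientGroup.mk' M), ?_⟩
  ext z
  rw [MonoidHom.mem_ker]
  constructor
  · intro h
    have h' : e.symm (QuotientGroup.mk z) = 1 := h
    rw [map_eq_one_iff _ e.symm.injective] at h'
    exact (QuotientGroup.eq_one_iff z).1 h'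
  · intro h
    show e.symm (QuotientGroup.mk z) = 1
    rw [(QuotientGroup.eq_one_iff z).2 h, map_one]

/-- Automorphisms which act trivially modulo the Frattini subgroup. -/
def TrivFrat (P : Type) [Group P] : Subgroup (MulAut P) where
  carrier := {g | ∀ x, x⁻¹ * g x ∈ frattini P}
  mul_mem' := by
    intro a b ha hb x
    have h := mul_mem (hb x) (ha (b x))
    have : x⁻¹ * b x * ((b x)⁻¹ * a (b x)) = x⁻¹ * (a * b) x := by
      rw [mul_assoc, mul_inv_cancel_left]; rfl
    rwa [this] at h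
  one_mem' := by
    intro x
    show x⁻¹ * x ∈ _
    rw [inv_mul_cancel]; exact one_mem _
  inv_mem' := by
    intro a ha x
    have h := inv_mem (ha (a⁻¹ x))
    rw [mul_inv_rev, inv_inv] at h
    have e : a (a⁻¹ x) = x := MulAut.apply_inv_self P a x
    rwa [e] at h

theorem fix_of_prime [Finite P] {p : ℕ} [Fact p.Prime] (hP : IsPGroup p P) {r : ℕ}
    [Fact r.Prime] (hr : r ≠ p) {μ : MulAut P} (hμ : μ ∈ TrivFrat P) (hμr : μ ^ r = 1) :
    μ = 1 := by
  have hΓ : Subgroup.zpowers μ ≤ TrivFrat P := by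
    rw [Subgroup.zpowers_le]; exact hμ
  have hpg : IsPGroup r (Subgroup.zpowers μ) := by
    rintro ⟨g, hg⟩
    obtain ⟨k, rfl⟩ := Subgroup.mem_zpowers_iff.1 hg
    refine ⟨1, ?_⟩
    apply Subtype.ext
    show (μ ^ k) ^ (r ^ 1) = 1
    rw [pow_one, ← zpow_natCast, ← zpow_mul, mul_comm, zpow_mul, zpow_natCast, hμr, one_zpow]
  have hfix : ∀ x : P, ∃ y, x⁻¹ * y ∈ frattini P ∧ μ y = y := by
    intro x
    let S : SubMulAction (Subgroup.zpowers μ) P :=
      { carrier := {y | x⁻¹ * y ∈ frattini P}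
        smul_mem' := by
          intro g y hy
          have h := mul_mem hy (hΓ g.2 y)
          have e : x⁻¹ * y * (y⁻¹ * (g : MulAut P) y) = x⁻¹ * (g • y) := by
            rw [mul_assoc, mul_inv_cancel_left]; rfl
          rwa [e] at h }
    have hcard : Nat.card S = Nat.card (frattini P) := by
      refine Nat.card_congr ⟨fun y => ⟨x⁻¹ * y.1, y.2⟩, fun z => ⟨x * z.1, ?_⟩, ?_, ?_⟩
      · show x⁻¹ * (x * z.1) ∈ frattini P
        rw [inv_mul_cancel_left]; exact z.2
      · intro y; apply Subtype.ext; simp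
      · intro z; apply Subtype.ext; simp
    have hnd : ¬ r ∣ Nat.card S := by
      rw [hcard]
      obtain ⟨n, hn⟩ := (hP.to_subgroup (frattini P)).exists_card_eq
      rw [hn]
      intro h
      have h1 := (Fact.out : r.Prime).dvd_of_dvd_pow h
      exact hr ((Nat.prime_dvd_prime_iff_eq Fact.out Fact.out).1 h1)
    obtain ⟨y, hy⟩ := hpg.nonempty_fixed_point_of_prime_not_dvd_card S hnd
    refine ⟨y.1, y.2, ?_⟩
    have h := hy ⟨μ, Subgroup.mem_zpowers μ⟩
    exact congrArg Subtype.val h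
  have htop : Fix μ ⊔ frattini P = ⊤ := by
    rw [eq_top_iff]
    intro x _
    obtain ⟨y, hy1, hy2⟩ := hfix x
    have : x = y * (x⁻¹ * y)⁻¹ := by group
    rw [this]
    exact mul_mem ((le_sup_left : Fix μ ≤ _) hy2) ((le_sup_right : frattini P ≤ _) (inv_mem hy1))
  have h2 := frattini_nongenerating htop
  apply MulEquiv.ext
  intro x
  have : x ∈ Fix μ := by rw [h2]; trivial
  exact this

theorem exists_pow_eq_one [Finite P] {p : ℕ} [hp : Fact p.Prime] (hP : IsPGroup p P)
    {μ : MulAut P} (hμ : μ ∈ TrivFrat P) : ∃ m : ℕ, μ ^ p ^ m = 1 := by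
  have : Finite (MulAut P) := inferInstance
  have hpos : orderOf μ ≠ 0 := (orderOf_pos μ).ne'
  have h := Nat.eq_prime_pow_of_unique_prime_dvd (p := p) hpos (by
    intro r hr hdvd
    by_contra hne
    have : Fact r.Prime := ⟨hr⟩
    obtain ⟨k, hk⟩ := hdvd
    have h1 : μ ^ k = 1 := by
      apply fix_of_prime hP hne (pow_mem hμ k)
      rw [← pow_mul, mul_comm, ← hk, pow_orderOf_eq_one]
    have h2 := orderOf_dvd_of_pow_eq_one h1
    have hk0 : 0 < k := Nat.pos_of_ne_zero (by rintro rfl; simp [hk] at hpos)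
    have h3 := Nat.le_of_dvd hk0 h2
    rw [hk] at h3
    have := hr.two_le
    nlinarith)
  exact ⟨_, by rw [← h, pow_orderOf_eq_one]⟩

end PGroup

section Main

variable {G : Type} [Group G]

theorem finite_hom [hG : Group.FG G] (M : Type) [Monoid M] [Finite M] : Finite (G →* M) := by
  obtain ⟨S, hS⟩ := hG.out
  have : Function.Injective (fun (f : G →* M) (s : S) => f s) := by
    intro f g h
    apply MonoidHom.eq_of_eqOn_dense hS
    intro x hx
    exact congrFun h ⟨x, hx⟩
  exact Finite.of_injective _ this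

/-- The action on the characters of order `p`. -/
def act (G : Type) [Group G] (p : ℕ) :
    MulAut G →* Equiv.Perm (G →* Multiplicative (ZMod p)) where
  toFun ν :=
    { toFun := fun χ => χ.comp (ν⁻¹ : MulAut G).toMonoidHom
      invFun := fun χ => χ.comp ν.toMonoidHom
      left_inv := by
        intro χ
        ext x
        show χ (ν⁻¹ (ν x)) = χ x
        rw [MulAut.inv_apply_self]
      right_inv := by
        intro χ
        ext x
        show χ (ν (ν⁻¹ x)) = χ x
        rw [MulAut.apply_inv_self] }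
  map_one' := by
    ext χ x
    rfl
  map_mul' := by
    intro a b
    apply Equiv.ext
    intro χ
    apply MonoidHom.ext
    intro x
    show χ ((a * b)⁻¹ x) = χ (b⁻¹ (a⁻¹ x))
    rw [mul_inv_rev]
    rfl

theorem act_ker {p : ℕ} {ν : MulAut G} (h : ν ∈ (act G p).ker)
    (χ : G →* Multiplicative (ZMod p)) (g : G) : χ (ν g) = χ g := by
  have h1 : act G p ν = 1 := h
  have h2 : χ.comp (ν⁻¹ : MulAut G).toMonoidHom = χ := by
    have := congrArg (fun e : Equiv.Perm (G →* Multiplicative (ZMod p)) => e χ) h1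
    exact this
  have h3 := congrArg (fun f : G →* Multiplicative (ZMod p) => f (ν g)) h2
  have h4 : χ (ν⁻¹ (ν g)) = χ (ν g) := h3
  rw [MulAut.inv_apply_self] at h4
  exact h4.symm

variable {ι : Type} [Fintype ι] [DecidableEq ι]

/-- Reduction of matrices modulo `p ^ k`. -/
def red (ι : Type) [Fintype ι] [DecidableEq ι] (p k : ℕ) :
    Matrix ι ι ℤ →* Matrix ι ι (ZMod (p ^ k)) :=
  ((Int.castRingHom (ZMod (p ^ k))).mapMatrix : Matrix ι ι ℤ →+* Matrix ι ι (ZMod (p ^ k)))

theorem red_apply (p k : ℕ) (M : Matrix ι ι ℤ) (i j : ι) :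
    red ι p k M i j = ((M i j : ℤ) : ZMod (p ^ k)) := rfl

theorem red_pow {p k : ℕ} [hp : Fact p.Prime] {M : Matrix ι ι ℤ}
    (hM : ∀ i j, (p : ℤ) ∣ (M - 1) i j) : red ι p k (M ^ p ^ k) = 1 := by
  choose A hA using hM
  have hM' : M = 1 + (p : Matrix ι ι ℤ) * Matrix.of A := by
    have : M - 1 = (p : Matrix ι ι ℤ) * Matrix.of A := by
      have hs : ((p : Matrix ι ι ℤ) * Matrix.of A) = p • Matrix.of A := (nsmul_eq_mul _ _).symm
      rw [hs]
      ext i j
      rw [hA i j, Matrix.smul_apply, Matrix.of_apply, nsmul_eq_mul]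
    rw [← this]; abel
  have h1 : ((p : Polynomial ℤ)) ∣ (1 + (p : Polynomial ℤ) * Polynomial.X) - 1 :=
    ⟨Polynomial.X, by ring⟩
  obtain ⟨Q, hQ⟩ := dvd_sub_pow_of_dvd_sub h1 k
  have h2 := congrArg (Polynomial.aeval (Matrix.of A)) hQ
  simp only [map_sub, map_pow, map_add, map_mul, map_one, map_natCast, Polynomial.aeval_X,
    one_pow] at h2
  rw [← hM'] at h2
  have h3 : M ^ p ^ k = 1 + (p : Matrix ι ι ℤ) ^ (k + 1) * Polynomial.aeval (Matrix.of A) Q := by
    rw [← h2]; abel
  rw [h3]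
  ext i j
  rw [red_apply]
  have h4 : ((p : Matrix ι ι ℤ) ^ (k + 1) * Polynomial.aeval (Matrix.of A) Q) i j
      = (p : ℤ) ^ (k + 1) * (Polynomial.aeval (Matrix.of A) Q) i j := by
    rw [← Nat.cast_pow, ← nsmul_eq_mul, Matrix.smul_apply, nsmul_eq_mul, Nat.cast_pow]
  rw [Matrix.add_apply, h4, Int.cast_add, Int.cast_mul]
  have h5 : (((p : ℤ) ^ (k + 1) : ℤ) : ZMod (p ^ k)) = 0 := by
    rw [ZMod.intCast_zmod_eq_zero_iff_dvd]
    push_cast
    exact ⟨p, by ring⟩
  rw [h5, zero_mul, add_zero]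
  by_cases hij : i = j
  · subst hij; simp
  · simp [Matrix.one_apply_ne hij]

theorem eq_one_of_red {p : ℕ} [hp : Fact p.Prime] {M : Matrix ι ι ℤ}
    (h : ∀ k, red ι p k M = 1) : M = 1 := by
  ext i j
  have h1 : ∀ k : ℕ, ((p : ℤ) ^ k) ∣ (M i j - (1 : Matrix ι ι ℤ) i j) := by
    intro k
    have h2 := congrFun (congrFun (h k) i) j
    rw [red_apply] at h2
    have h3 : (((1 : Matrix ι ι ℤ) i j : ℤ) : ZMod (p ^ k)) = (1 : Matrix ι ι (ZMod (p ^ k))) i j := by
      by_cases hij : i = j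
      · subst hij; simp
      · simp [Matrix.one_apply_ne hij]
    have h4 : ((M i j - (1 : Matrix ι ι ℤ) i j : ℤ) : ZMod (p ^ k)) = 0 := by
      rw [Int.cast_sub, h2, h3, sub_self]
    rw [ZMod.intCast_zmod_eq_zero_iff_dvd] at h4
    exact_mod_cast h4
  by_contra hne
  have h0 : M i j - (1 : Matrix ι ι ℤ) i j ≠ 0 := sub_ne_zero.2 hne
  have h2 := Int.natAbs_dvd_natAbs.2 (h1 (M i j - (1 : Matrix ι ι ℤ) i j).natAbs)
  have h3 := Nat.le_of_dvd (Int.natAbs_pos.2 h0) h2
  rw [Int.natAbs_pow, Int.natAbs_natCast] at h3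
  exact absurd h3 (not_le.2 (Nat.lt_pow_self hp.out.one_lt))

/-- The characteristic subgroup given by reduction modulo `p ^ k`. -/
def KK (ρ : G →* Matrix ι ι ℤ) (p k : ℕ) : Subgroup G :=
  ⨅ φ : MulAut G, ((red ι p k).comp (ρ.comp φ.toMonoidHom)).ker

theorem mem_KK {ρ : G →* Matrix ι ι ℤ} {p k : ℕ} {x : G} :
    x ∈ KK ρ p k ↔ ∀ φ : MulAut G, red ι p k (ρ (φ x)) = 1 := by
  unfold KK
  rw [Subgroup.mem_iInf]
  rfl

theorem KK_char (ρ : G →* Matrix ι ι ℤ) (p k : ℕ) : (KK ρ p k).Characteristic := by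
  rw [Subgroup.characteristic_iff_le_comap]
  intro α x hx
  rw [Subgroup.mem_comap, mem_KK]
  intro φ
  exact (mem_KK.1 hx) (φ * α)

theorem finiteIndex_ker_monoid {M : Type} [Monoid M] [Finite M] (f : G →* M) :
    f.ker.FiniteIndex := by
  have h : f.ker = f.toHomUnits.ker := by
    ext x
    rw [MonoidHom.mem_ker, MonoidHom.mem_ker]
    constructor
    · intro h
      apply Units.ext
      exact h
    · intro h
      exact congrArg Units.val h
  rw [h]
  infer_instance

theorem KK_finiteIndex [Group.FG G] (ρ : G →* Matrix ι ι ℤ) (p k : ℕ) [hp : Fact p.Prime] :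
    (KK ρ p k).FiniteIndex := by
  have : NeZero (p ^ k) := ⟨pow_ne_zero _ hp.out.ne_zero⟩
  have := finite_hom (G := G) (Matrix ι ι (ZMod (p ^ k)))
  have h : KK ρ p k = ⨅ ψ : Set.range (fun φ : MulAut G => (red ι p k).comp (ρ.comp φ.toMonoidHom)),
      (ψ.1).ker := by
    apply le_antisymm
    · apply le_iInf
      rintro ⟨_, φ, rfl⟩
      exact iInf_le _ φ
    · apply le_iInf
      intro φ
      exact iInf_le_of_le ⟨_, φ, rfl⟩ le_rfl
  rw [h]
  exact Subgroup.finiteIndex_iInf (fun ψ => finiteIndex_ker_monoid _)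

/-- Automorphisms act on characteristic quotients. -/
def qact (H : Subgroup G) [hH : H.Characteristic] : MulAut G →* MulAut (G ⧸ H) where
  toFun α := QuotientGroup.congr H H α (Subgroup.characteristic_iff_map_eq.1 hH α)
  map_one' := by
    apply MulEquiv.ext
    intro x
    obtain ⟨x, rfl⟩ := QuotientGroup.mk_surjective x
    rfl
  map_mul' := by
    intro a b
    apply MulEquiv.ext
    intro x
    obtain ⟨x, rfl⟩ := QuotientGroup.mk_surjective x
    rfl

theorem qact_mk (H : Subgroup G) [hH : H.Characteristic] (α : MulAut G) (g : G) :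
    qact H α (QuotientGroup.mk g) = QuotientGroup.mk (α g) := rfl

theorem fixed_of_coprime {P : Type} [Group P] (α : MulAut P) (x : P) (a b : ℕ)
    (hab : Nat.Coprime a b) (ha : (α ^ a) x = x) (hb : (α ^ b) x = x) : α x = x := by
  have h1 : α ^ a ∈ MulAction.stabilizer (MulAut P) x := ha
  have h2 : α ^ b ∈ MulAction.stabilizer (MulAut P) x := hb
  obtain ⟨u, v, huv⟩ := Nat.isCoprime_iff_coprime.2 hab
  have h3 : α = (α ^ a) ^ u * (α ^ b) ^ v := by
    rw [← zpow_natCast, ← zpow_natCast, ← zpow_mul, ← zpow_mul, ← zpow_add,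
      mul_comm (a : ℤ), mul_comm (b : ℤ), huv, zpow_one]
  have h4 : α ∈ MulAction.stabilizer (MulAut P) x := by
    rw [h3]
    exact mul_mem (zpow_mem h1 u) (zpow_mem h2 v)
  exact h4

theorem per_prime [Group.FG G] (ρ : G →* Matrix ι ι ℤ) (hinj : Function.Injective ρ)
    {p : ℕ} [hp : Fact p.Prime] (hmod : ∀ g, ∀ i j, (p : ℤ) ∣ (ρ g - 1) i j) {ν : MulAut G}
    (hν : ν ∈ (act G p).ker) {q : ℕ} (hq : Nat.Coprime p q) {g : G} (hg : (ν ^ q) g = g) :
    ν g = g := by
  have key : ∀ k, red ι p k (ρ (g⁻¹ * ν g)) = 1 := by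
    intro k
    have := KK_char ρ p k
    have := KK_finiteIndex ρ p k
    have : Finite (G ⧸ KK ρ p k) := Subgroup.finite_quotient_of_finiteIndex
    have hP : IsPGroup p (G ⧸ KK ρ p k) := by
      intro x
      obtain ⟨x, rfl⟩ := QuotientGroup.mk_surjective x
      refine ⟨k, ?_⟩
      have : (QuotientGroup.mk x : G ⧸ KK ρ p k) ^ p ^ k = QuotientGroup.mk (x ^ p ^ k) := rfl
      rw [this, QuotientGroup.eq_one_iff, mem_KK]
      intro φ
      rw [map_pow, map_pow]
      exact red_pow (hmod _)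
    have hT : qact (KK ρ p k) ν ∈ TrivFrat (G ⧸ KK ρ p k) := by
      intro x
      obtain ⟨x, rfl⟩ := QuotientGroup.mk_surjective x
      unfold frattini Order.radical
      rw [Subgroup.mem_iInf]
      intro M
      rw [Subgroup.mem_iInf]
      intro hM
      obtain ⟨χ, hχ⟩ := coatom_char hP M hM
      rw [← hχ, MonoidHom.mem_ker, map_mul, map_inv, qact_mk]
      have := act_ker hν (χ.comp (QuotientGroup.mk' (KK ρ p k))) x
      have h' : χ (QuotientGroup.mk (ν x)) = χ (QuotientGroup.mk x) := this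
      rw [h', inv_mul_cancel]
    obtain ⟨m, hm⟩ := exists_pow_eq_one hP hT
    have hfix : qact (KK ρ p k) ν (QuotientGroup.mk g) = QuotientGroup.mk g := by
      apply fixed_of_coprime _ _ (p ^ m) q (hq.pow_left m)
      · rw [hm]; rfl
      · rw [← map_pow, qact_mk, hg]
    rw [qact_mk] at hfix
    have h := QuotientGroup.eq.1 hfix.symm
    exact (mem_KK.1 h) 1
  have h1 := eq_one_of_red key
  have h2 : g⁻¹ * ν g = 1 := hinj (by rw [h1, map_one])
  exact (inv_mul_eq_one.1 h2).symm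

theorem Per_proof : Stmt_Per := by
  intro G _ _ ι _ _ ρ hinj hmod
  have := finite_hom (G := G) (Multiplicative (ZMod 2))
  have := finite_hom (G := G) (Multiplicative (ZMod 3))
  refine ⟨(act G 2).ker ⊓ (act G 3).ker, inferInstance, ?_⟩
  have h2 : ∀ g, ∀ i j, ((2 : ℕ) : ℤ) ∣ (ρ g - 1) i j := fun g i j =>
    dvd_trans (by norm_num) (hmod g i j)
  have h3 : ∀ g, ∀ i j, ((3 : ℕ) : ℤ) ∣ (ρ g - 1) i j := fun g i j =>
    dvd_trans (by norm_num) (hmod g i j)
  have hprime : ∀ ν ∈ (act G 2).ker ⊓ (act G 3).ker, ∀ (g : G) (q : ℕ), q.Prime →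
      (ν ^ q) g = g → ν g = g := by
    intro ν hν g q hq hg
    by_cases hq2 : q = 2
    · subst hq2
      have : Fact (Nat.Prime 3) := ⟨Nat.prime_three⟩
      exact per_prime ρ hinj h3 hν.2 (by norm_num) hg
    · have : Fact (Nat.Prime 2) := ⟨Nat.prime_two⟩
      exact per_prime ρ hinj h2 hν.1
        ((Nat.coprime_primes Nat.prime_two hq).2 (fun h => hq2 h.symm)) hg
  intro ν hν g q
  induction q using Nat.strong_induction_on with
  | _ q ih =>
    intro hq0 hg
    by_cases hq1 : q = 1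
    · subst hq1; simpa using hg
    · have hr := Nat.minFac_prime hq1
      obtain ⟨m, hm⟩ := Nat.minFac_dvd q
      have hm0 : 0 < m := by
        rcases Nat.eq_zero_or_pos m with h | h
        · rw [h, mul_zero] at hm; omega
        · exact h
      have hlt : m < q := by
        have := hr.two_le
        nlinarith
      apply ih m hlt hm0
      apply hprime _ (pow_mem hν m) g _ hr
      rw [← pow_mul, mul_comm, ← hm]
      exact hg

end Main

end Pool.Agent.FixChain.PerB
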