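import Pool.Agent.FixChain.Stmts

set_option autoImplicit false

/-!
# Module A: a faithful integral representation of right-angled Artin groups by ping-pong
-/

namespace Pool.Agent.FixChain

section

variable {V : Type} (Γ : SimpleGraph V)

open Classical in
/-- The linear map attached to the `k`-th power of a generator. -/
noncomputable def T (v : V) (k : ℤ) : (V ⊕ V → ℤ) →ₗ[ℤ] (V ⊕ V → ℤ) where
  toFun f := Sum.elim
    (fun w => if w = v then f (Sum.inl v) + 6 * k * f (Sum.inr v) else f (Sum.inl w))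
    (fun w => if w = v ∨ Γ.Adj v w then f (Sum.inr w) else
      f (Sum.inr w) + 6 * (k * f (Sum.inl v) + 3 * k ^ 2 * f (Sum.inr v)))
  map_add' f g := by
    funext i
    rcases i with w | w
    · simp only [Sum.elim_inl, Pi.add_apply]
      split_ifs <;> ring
    · simp only [Sum.elim_inr, Pi.add_apply]
      split_ifs <;> ring
  map_smul' c f := by
    funext i
    rcases i with w | w
    · simp only [Sum.elim_inl, Pi.smul_apply, smul_eq_mul, RingHom.id_apply]
      split_ifs <;> ring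
    · simp only [Sum.elim_inr, Pi.smul_apply, smul_eq_mul, RingHom.id_apply]
      split_ifs <;> ring

open Classical in
theorem T_inl_self (v : V) (k : ℤ) (f : V ⊕ V → ℤ) :
    T Γ v k f (Sum.inl v) = f (Sum.inl v) + 6 * k * f (Sum.inr v) := by
  show (if v = v then _ else _) = _
  rw [if_pos rfl]

open Classical in
theorem T_inl_ne {v w : V} (h : w ≠ v) (k : ℤ) (f : V ⊕ V → ℤ) :
    T Γ v k f (Sum.inl w) = f (Sum.inl w) := by
  show (if w = v then _ else _) = _
  rw [if_neg h]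

open Classical in
theorem T_inr_self (v : V) (k : ℤ) (f : V ⊕ V → ℤ) :
    T Γ v k f (Sum.inr v) = f (Sum.inr v) := by
  show (if v = v ∨ Γ.Adj v v then _ else _) = _
  rw [if_pos (Or.inl rfl)]

open Classical in
theorem T_inr_adj {v w : V} (h : Γ.Adj v w) (k : ℤ) (f : V ⊕ V → ℤ) :
    T Γ v k f (Sum.inr w) = f (Sum.inr w) := by
  show (if w = v ∨ Γ.Adj v w then _ else _) = _
  rw [if_pos (Or.inr h)]

open Classical in
theorem T_inr_non {v w : V} (h1 : w ≠ v) (h : ¬ Γ.Adj v w) (k : ℤ) (f : V ⊕ V → ℤ) :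
    T Γ v k f (Sum.inr w) =
      f (Sum.inr w) + 6 * (k * f (Sum.inl v) + 3 * k ^ 2 * f (Sum.inr v)) := by
  show (if w = v ∨ Γ.Adj v w then _ else _) = _
  rw [if_neg (by tauto)]

theorem T_add (v : V) (k l : ℤ) (f : V ⊕ V → ℤ) :
    T Γ v (k + l) f = T Γ v k (T Γ v l f) := by
  funext i
  rcases i with w | w
  · by_cases h : w = v
    · subst h
      rw [T_inl_self, T_inl_self, T_inl_self, T_inr_self]
      ring
    · rw [T_inl_ne Γ h, T_inl_ne Γ h, T_inl_ne Γ h]
  · by_cases h : w = v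
    · subst h
      rw [T_inr_self, T_inr_self, T_inr_self]
    · by_cases h2 : Γ.Adj v w
      · rw [T_inr_adj Γ h2, T_inr_adj Γ h2, T_inr_adj Γ h2]
      · rw [T_inr_non Γ h h2, T_inr_non Γ h h2, T_inr_non Γ h h2, T_inl_self, T_inr_self]
        ring

theorem T_zero (v : V) (f : V ⊕ V → ℤ) : T Γ v 0 f = f := by
  funext i
  rcases i with w | w
  · by_cases h : w = v
    · subst h
      rw [T_inl_self]
      ring
    · rw [T_inl_ne Γ h]
  · by_cases h : w = v
    · subst h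
      rw [T_inr_self]
    · by_cases h2 : Γ.Adj v w
      · rw [T_inr_adj Γ h2]
      · rw [T_inr_non Γ h h2]
        ring

theorem T_comm {v w : V} (hvw : Γ.Adj v w) (k l : ℤ) (f : V ⊕ V → ℤ) :
    T Γ v k (T Γ w l f) = T Γ w l (T Γ v k f) := by
  have hne : v ≠ w := hvw.ne
  have hne' : w ≠ v := hvw.ne'
  have hwv : Γ.Adj w v := hvw.symm
  funext i
  rcases i with u | u
  · by_cases h : u = v
    · subst h
      rw [T_inl_self, T_inl_ne Γ hne, T_inl_ne Γ hne, T_inl_self, T_inr_adj Γ hwv]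
    · by_cases h' : u = w
      · subst h'
        rw [T_inl_ne Γ h, T_inl_self, T_inl_self, T_inr_adj Γ hvw, T_inl_ne Γ h]
      · rw [T_inl_ne Γ h, T_inl_ne Γ h', T_inl_ne Γ h', T_inl_ne Γ h]
  · by_cases h : u = v
    · subst h
      rw [T_inr_self, T_inr_adj Γ hwv, T_inr_adj Γ hwv, T_inr_self]
    · by_cases h' : u = w
      · subst h'
        rw [T_inr_adj Γ hvw, T_inr_self, T_inr_self, T_inr_adj Γ hvw]
      · by_cases a : Γ.Adj v u
        · by_cases b : Γ.Adj w u
          · rw [T_inr_adj Γ a, T_inr_adj Γ b, T_inr_adj Γ b, T_inr_adj Γ a]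
          · rw [T_inr_adj Γ a, T_inr_non Γ h' b, T_inr_non Γ h' b, T_inr_adj Γ a,
              T_inl_ne Γ hne', T_inr_adj Γ hvw]
        · by_cases b : Γ.Adj w u
          · rw [T_inr_non Γ h a, T_inr_adj Γ b, T_inr_adj Γ b, T_inr_non Γ h a,
              T_inl_ne Γ hne, T_inr_adj Γ hwv]
          · rw [T_inr_non Γ h a, T_inr_non Γ h' b, T_inr_non Γ h' b, T_inr_non Γ h a,
              T_inl_ne Γ hne', T_inr_adj Γ hvw, T_inl_ne Γ hne, T_inr_adj Γ hwv]
            ring

/-- The linear automorphism attached to a generator. -/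
noncomputable def Le (v : V) : (V ⊕ V → ℤ) ≃ₗ[ℤ] (V ⊕ V → ℤ) :=
  LinearEquiv.ofLinearMap (T Γ v 1) (T Γ v (-1))
    (by
      apply LinearMap.ext
      intro f
      rw [LinearMap.comp_apply, ← T_add, LinearMap.id_apply]
      exact T_zero Γ v f)
    (by
      apply LinearMap.ext
      intro f
      rw [LinearMap.comp_apply, ← T_add, LinearMap.id_apply]
      exact T_zero Γ v f)

theorem Le_apply (v : V) (f : V ⊕ V → ℤ) : Le Γ v f = T Γ v 1 f := rfl

theorem Le_symm_apply (v : V) (f : V ⊕ V → ℤ) : (Le Γ v)⁻¹ f = T Γ v (-1) f := rfl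

theorem Le_zpow (v : V) (k : ℤ) : ∀ f, (Le Γ v ^ k) f = T Γ v k f := by
  induction k using Int.induction_on with
  | zero =>
    intro f
    rw [zpow_zero, T_zero]
    rfl
  | succ n ih =>
    intro f
    rw [zpow_add, zpow_one, LinearEquiv.mul_apply, ih, Le_apply, ← T_add]
  | pred n ih =>
    intro f
    rw [zpow_sub, zpow_one, LinearEquiv.mul_apply, ih, Le_symm_apply, ← T_add]
    rfl

theorem Le_comm {v w : V} (h : Γ.Adj v w) : Le Γ v * Le Γ w = Le Γ w * Le Γ v := by
  apply LinearEquiv.ext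
  intro f
  rw [LinearEquiv.mul_apply, LinearEquiv.mul_apply, Le_apply, Le_apply, Le_apply, Le_apply,
    T_comm Γ h]

/-- The action of the right-angled Artin group. -/
noncomputable def act : RAAG Γ →* ((V ⊕ V → ℤ) ≃ₗ[ℤ] (V ⊕ V → ℤ)) :=
  PresentedGroup.toGroup (f := Le Γ) (rels := rels Γ) (by
    rintro r ⟨v, w, h, rfl⟩
    rw [map_mul, map_mul, map_mul, map_inv, map_inv, FreeGroup.lift_apply_of,
      FreeGroup.lift_apply_of, Le_comm Γ h]
    group)

theorem act_gen (v : V) : act Γ (gen Γ v) = Le Γ v := PresentedGroup.toGroup.of _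

theorem act_gen_zpow (v : V) (k : ℤ) (f : V ⊕ V → ℤ) : act Γ (gen Γ v ^ k) f = T Γ v k f := by
  rw [map_zpow, act_gen, Le_zpow]

/-- The product of a list of syllables. -/
noncomputable def wp (l : List (V × ℤ)) : RAAG Γ := (l.map fun p => gen Γ p.1 ^ p.2).prod

theorem wp_nil : wp Γ [] = 1 := rfl

theorem wp_cons (p : V × ℤ) (l : List (V × ℤ)) : wp Γ (p :: l) = gen Γ p.1 ^ p.2 * wp Γ l := by
  unfold wp
  rw [List.map_cons, List.prod_cons]

theorem exists_wp (g : RAAG Γ) : ∃ l, wp Γ l = g := by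
  have hg : g ∈ Subgroup.closure (Set.range (PresentedGroup.of (rels := rels Γ))) := by
    rw [PresentedGroup.closure_range_of]
    trivial
  induction hg using Subgroup.closure_induction_left with
  | one => exact ⟨[], rfl⟩
  | mul_left x hx y _ ih =>
    obtain ⟨v, rfl⟩ := hx
    obtain ⟨l, rfl⟩ := ih
    refine ⟨(v, 1) :: l, ?_⟩
    rw [wp_cons, zpow_one]
    rfl
  | inv_mul_cancel x hx y _ ih =>
    obtain ⟨v, rfl⟩ := hx
    obtain ⟨l, rfl⟩ := ih
    refine ⟨(v, -1) :: l, ?_⟩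
    rw [wp_cons, zpow_neg_one]
    rfl

/-- Syllable length at most `n`. -/
def LenLe (n : ℕ) (g : RAAG Γ) : Prop := ∃ l, l.length ≤ n ∧ wp Γ l = g

theorem LenLe.mul_left {n : ℕ} {g : RAAG Γ} (h : LenLe Γ n g) (v : V) (k : ℤ) :
    LenLe Γ (n + 1) (gen Γ v ^ k * g) := by
  obtain ⟨l, hl, rfl⟩ := h
  refine ⟨(v, k) :: l, ?_, wp_cons Γ _ _⟩
  rw [List.length_cons]
  omega

theorem gen_comm {v w : V} (h : Γ.Adj v w) : Commute (gen Γ v) (gen Γ w) := by
  have h1 : PresentedGroup.mk (rels Γ)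
      (FreeGroup.of v * FreeGroup.of w * (FreeGroup.of v)⁻¹ * (FreeGroup.of w)⁻¹) = 1 := by
    rw [PresentedGroup.mk_eq_one_iff]
    exact Subgroup.subset_normalClosure ⟨v, w, h, rfl⟩
  rw [map_mul, map_mul, map_mul, map_inv, map_inv] at h1
  have h2 : gen Γ v * gen Γ w * (gen Γ v)⁻¹ * (gen Γ w)⁻¹ = 1 := h1
  rw [mul_inv_eq_one, mul_inv_eq_iff_eq_mul] at h2
  exact h2

/-- The ping-pong function. -/
def MM (f : V ⊕ V → ℤ) (v : V) : ℤ := f (Sum.inr v) - |f (Sum.inl v)|

/-- The ping-pong region. -/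
def GoodPt (f : V ⊕ V → ℤ) : Prop :=
  ∀ u w, u ≠ w → ¬ Γ.Adj u w → 0 ≤ MM f u + MM f w

theorem pp_core (y h k : ℤ) (hk : k ≠ 0) (hM : 0 < h - |y|) :
    h - |y + 6 * k * h| < 0 ∧
      (h - |y|) + (|y + 6 * k * h| - h) ≤ 6 * (k * y + 3 * k ^ 2 * h) := by
  have hy := abs_nonneg y
  have hh : 0 < h := by linarith
  have hk1 : 1 ≤ |k| := Int.one_le_abs hk
  have e1 : |6 * k * h| = 6 * |k| * h := by
    rw [abs_mul, abs_mul, abs_of_pos hh]
    norm_num
  have t1 : |6 * k * h| ≤ |y + 6 * k * h| + |y| := by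
    have := abs_sub (y + 6 * k * h) y
    have e : y + 6 * k * h - y = 6 * k * h := by ring
    rw [e] at this
    exact this
  have t2 : |y + 6 * k * h| ≤ |y| + |6 * k * h| := abs_add_le _ _
  have t3 : h ≤ |k| * h := by nlinarith
  have t4 : -(|k| * |y|) ≤ k * y := by
    rw [← abs_mul]
    exact neg_abs_le _
  have t5 : |k| * |y| ≤ |k| * h := by
    apply mul_le_mul_of_nonneg_left (by linarith) (abs_nonneg k)
  have t6 : |k| * h ≤ k ^ 2 * h := by
    apply mul_le_mul_of_nonneg_right _ hh.le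
    rw [← sq_abs]
    nlinarith
  constructor
  · rw [e1] at t1
    nlinarith
  · rw [e1] at t2
    nlinarith

theorem pp {f : V ⊕ V → ℤ} (hf : GoodPt Γ f) {v : V} (hv : 0 < MM f v) {k : ℤ} (hk : k ≠ 0) :
    GoodPt Γ (T Γ v k f) ∧ MM (T Γ v k f) v < 0 ∧
      (∀ u, u ≠ v → ¬ Γ.Adj v u → 0 < MM (T Γ v k f) u) ∧
      (∀ u, Γ.Adj v u → MM (T Γ v k f) u = MM f u) := by
  obtain ⟨c1, c2⟩ := pp_core (f (Sum.inl v)) (f (Sum.inr v)) k hk hv
  have ev : MM (T Γ v k f) v = f (Sum.inr v) - |f (Sum.inl v) + 6 * k * f (Sum.inr v)| := by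
    unfold MM
    rw [T_inr_self, T_inl_self]
  have eu : ∀ u, u ≠ v → ¬ Γ.Adj v u → MM (T Γ v k f) u =
      MM f u + 6 * (k * f (Sum.inl v) + 3 * k ^ 2 * f (Sum.inr v)) := by
    intro u h1 h2
    unfold MM
    rw [T_inr_non Γ h1 h2, T_inl_ne Γ h1]
    ring
  have ea : ∀ u, Γ.Adj v u → MM (T Γ v k f) u = MM f u := by
    intro u h
    unfold MM
    rw [T_inr_adj Γ h, T_inl_ne Γ h.ne']
  have hMv : MM f v = f (Sum.inr v) - |f (Sum.inl v)| := rfl
  have key : ∀ u, u ≠ v → ¬ Γ.Adj v u → - MM (T Γ v k f) v ≤ MM (T Γ v k f) u := by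
    intro u h1 h2
    have h3 := hf v u (fun h => h1 h.symm) h2
    rw [eu u h1 h2, ev]
    rw [hMv] at h3
    linarith
  have mono : ∀ u, u ≠ v → MM f u ≤ MM (T Γ v k f) u := by
    intro u h1
    by_cases h2 : Γ.Adj v u
    · rw [ea u h2]
    · rw [eu u h1 h2]
      linarith
  refine ⟨?_, ?_, ?_, ea⟩
  · intro u w huw hadj
    by_cases h1 : u = v
    · subst h1
      have := key w (fun h => huw h.symm) hadj
      linarith
    · by_cases h2 : w = v
      · subst h2
        have := key u h1 (fun h => hadj h.symm)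
        linarith
      · have a1 := mono u h1
        have a2 := mono w h2
        have a3 := hf u w huw hadj
        linarith
  · rw [ev]
    exact c1
  · intro u h1 h2
    have h3 := key u h1 h2
    have h4 : MM (T Γ v k f) v < 0 := by
      rw [ev]
      exact c1
    linarith

/-- The base point. -/
def x0 : V ⊕ V → ℤ := Sum.elim (fun _ => 0) (fun _ => 1)

theorem MM_x0 (v : V) : MM (x0 : V ⊕ V → ℤ) v = 1 := by
  show (1 : ℤ) - |0| = 1
  simp

theorem main_ind (n : ℕ) : ∀ g : RAAG Γ, LenLe Γ n g → (∀ m, m < n → ¬ LenLe Γ m g) →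
    GoodPt Γ (act Γ g x0) ∧
      ∀ v, 0 < MM (act Γ g x0) v ∨ ∃ (l : ℤ) (m : ℕ), m < n ∧ LenLe Γ m (gen Γ v ^ l * g) := by
  induction n with
  | zero =>
    intro g hg _
    obtain ⟨l, hl, rfl⟩ := hg
    have hl0 : l = [] := List.eq_nil_of_length_eq_zero (by omega)
    subst hl0
    rw [wp_nil, map_one]
    refine ⟨?_, ?_⟩
    · intro u w _ _
      show 0 ≤ MM (x0 : V ⊕ V → ℤ) u + MM (x0 : V ⊕ V → ℤ) w
      rw [MM_x0, MM_x0]
      norm_num
    · intro v
      left
      show 0 < MM (x0 : V ⊕ V → ℤ) v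
      rw [MM_x0]
      norm_num
  | succ n ih =>
    intro g hg hmin
    obtain ⟨l, hl, rfl⟩ := hg
    rcases l with _ | ⟨⟨v, k⟩, l⟩
    · exfalso
      exact hmin 0 (by omega) ⟨[], le_refl _, rfl⟩
    · rw [wp_cons] at hmin ⊢
      simp only at hmin ⊢
      rw [List.length_cons] at hl
      have hk : k ≠ 0 := by
        intro hk
        subst hk
        refine hmin n (by omega) ?_
        rw [zpow_zero, one_mul]
        exact ⟨l, by omega, rfl⟩
      have hl' : LenLe Γ n (wp Γ l) := ⟨l, by omega, rfl⟩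
      have hmin' : ∀ m, m < n → ¬ LenLe Γ m (wp Γ l) := by
        intro m hm h
        exact hmin (m + 1) (by omega) (h.mul_left Γ v k)
      obtain ⟨hgood, hdesc⟩ := ih _ hl' hmin'
      have hpos : 0 < MM (act Γ (wp Γ l) x0) v := by
        rcases hdesc v with h | ⟨l', m, hm, h⟩
        · exact h
        · exfalso
          refine hmin (m + 1) (by omega) ?_
          have e : gen Γ v ^ k * wp Γ l = gen Γ v ^ (k - l') * (gen Γ v ^ l' * wp Γ l) := by
            rw [← mul_assoc, ← zpow_add]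
            congr 2
            ring
          rw [e]
          exact h.mul_left Γ v _
      have eact : act Γ (gen Γ v ^ k * wp Γ l) x0 = T Γ v k (act Γ (wp Γ l) x0) := by
        rw [map_mul, LinearEquiv.mul_apply, act_gen_zpow]
      obtain ⟨p1, p2, p3, p4⟩ := pp Γ hgood hpos hk
      rw [eact]
      refine ⟨p1, ?_⟩
      intro u
      by_cases h1 : u = v
      · subst h1
        right
        refine ⟨-k, n, by omega, ?_⟩
        rw [← mul_assoc, ← zpow_add, neg_add_cancel, zpow_zero, one_mul]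
        exact hl'
      · by_cases h2 : Γ.Adj v u
        · rw [p4 u h2]
          rcases hdesc u with h | ⟨l', m, hm, h⟩
          · left
            exact h
          · right
            refine ⟨l', m + 1, by omega, ?_⟩
            have hc : Commute (gen Γ u ^ l') (gen Γ v ^ k) :=
              ((gen_comm Γ h2).symm.zpow_zpow l' k)
            rw [← mul_assoc, hc.eq, mul_assoc]
            exact h.mul_left Γ v k
        · left
          exact p3 u h1 h2

theorem act_x0_ne {g : RAAG Γ} (hg : g ≠ 1) : act Γ g x0 ≠ x0 := by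
  classical
  have hex : ∃ n, LenLe Γ n g := by
    obtain ⟨l, hl⟩ := exists_wp Γ g
    exact ⟨l.length, l, le_refl _, hl⟩
  have hspec := Nat.find_spec hex
  have hminn : ∀ m, m < Nat.find hex → ¬ LenLe Γ m g := fun m hm => Nat.find_min hex hm
  obtain ⟨l, hl, hlg⟩ := hspec
  rcases l with _ | ⟨⟨v, k⟩, l⟩
  · exact absurd hlg.symm hg
  · rw [List.length_cons] at hl
    rw [wp_cons] at hlg
    simp only at hlg
    subst hlg
    have hk : k ≠ 0 := by
      intro hk
      refine hminn l.length (by omega) ?_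
      rw [hk, zpow_zero, one_mul]
      exact ⟨l, le_refl _, rfl⟩
    have hl' : LenLe Γ l.length (wp Γ l) := ⟨l, le_refl _, rfl⟩
    have hmin' : ∀ m, m < l.length → ¬ LenLe Γ m (wp Γ l) := by
      intro m hm h
      exact hminn (m + 1) (by omega) (h.mul_left Γ v k)
    obtain ⟨hgood, hdesc⟩ := main_ind Γ l.length _ hl' hmin'
    have hpos : 0 < MM (act Γ (wp Γ l) x0) v := by
      rcases hdesc v with h | ⟨l', m, hm, h⟩
      · exact h
      · exfalso
        refine hminn (m + 1) (by omega) ?_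
        have e : gen Γ v ^ k * wp Γ l = gen Γ v ^ (k - l') * (gen Γ v ^ l' * wp Γ l) := by
          rw [← mul_assoc, ← zpow_add]
          congr 2
          ring
        rw [e]
        exact h.mul_left Γ v _
    have eact : act Γ (gen Γ v ^ k * wp Γ l) x0 = T Γ v k (act Γ (wp Γ l) x0) := by
      rw [map_mul, LinearEquiv.mul_apply, act_gen_zpow]
    obtain ⟨-, p2, -, -⟩ := pp Γ hgood hpos hk
    intro hcon
    rw [eact] at hcon
    rw [hcon, MM_x0] at p2
    norm_num at p2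

theorem T_mod (v : V) (k : ℤ) (f : V ⊕ V → ℤ) (i : V ⊕ V) : (6 : ℤ) ∣ T Γ v k f i - f i := by
  rcases i with w | w
  · by_cases h : w = v
    · subst h
      rw [T_inl_self]
      exact ⟨k * f (Sum.inr w), by ring⟩
    · rw [T_inl_ne Γ h, sub_self]
      exact dvd_zero _
  · by_cases h : w = v
    · subst h
      rw [T_inr_self, sub_self]
      exact dvd_zero _
    · by_cases h2 : Γ.Adj v w
      · rw [T_inr_adj Γ h2, sub_self]
        exact dvd_zero _
      · rw [T_inr_non Γ h h2]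
        exact ⟨k * f (Sum.inl v) + 3 * k ^ 2 * f (Sum.inr v), by ring⟩

theorem act_mod (g : RAAG Γ) (f : V ⊕ V → ℤ) (i : V ⊕ V) : (6 : ℤ) ∣ act Γ g f i - f i := by
  obtain ⟨l, rfl⟩ := exists_wp Γ g
  induction l with
  | nil =>
    rw [wp_nil, map_one]
    show (6 : ℤ) ∣ f i - f i
    rw [sub_self]
    exact dvd_zero _
  | cons p l ih =>
    rw [wp_cons, map_mul, LinearEquiv.mul_apply, act_gen_zpow]
    have h1 := T_mod Γ p.1 p.2 (act Γ (wp Γ l) f) i
    have h2 := dvd_add h1 ih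
    rw [sub_add_sub_cancel] at h2
    exact h2

end

/-- **Module A.** -/
theorem Rep_proof : Stmt_Rep := by
  intro V _ Γ
  classical
  have : Fintype V := Fintype.ofFinite V
  refine ⟨V ⊕ V, inferInstance, inferInstance,
    (LinearMap.toMatrixAlgEquiv' (R := ℤ) (n := V ⊕ V)).toMulEquiv.toMonoidHom.comp
      ((LinearEquiv.automorphismGroup.toLinearMapMonoidHom).comp (act Γ)), ?_, ?_⟩
  · rw [injective_iff_map_eq_one]
    intro g hg
    by_contra hne
    apply act_x0_ne Γ hne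
    have h1 : LinearMap.toMatrixAlgEquiv' (R := ℤ) (n := V ⊕ V)
        ((act Γ g : (V ⊕ V → ℤ) ≃ₗ[ℤ] (V ⊕ V → ℤ)) : (V ⊕ V → ℤ) →ₗ[ℤ] (V ⊕ V → ℤ)) = 1 := hg
    have h2 : ((act Γ g : (V ⊕ V → ℤ) ≃ₗ[ℤ] (V ⊕ V → ℤ)) : (V ⊕ V → ℤ) →ₗ[ℤ] (V ⊕ V → ℤ))
        = 1 := by
      apply (LinearMap.toMatrixAlgEquiv' (R := ℤ) (n := V ⊕ V)).injective
      rw [h1, map_one]
    have h3 := LinearMap.congr_fun h2 x0
    exact h3
  · intro g i j
    have h1 := act_mod Γ g (Pi.single j 1) i
    have h2 : (LinearMap.toMatrixAlgEquiv' (R := ℤ) (n := V ⊕ V)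
        ((act Γ g : (V ⊕ V → ℤ) ≃ₗ[ℤ] (V ⊕ V → ℤ)) : (V ⊕ V → ℤ) →ₗ[ℤ] (V ⊕ V → ℤ))) i j =
        act Γ g (Pi.single j 1) i := by
      rw [LinearMap.toMatrixAlgEquiv'_apply]
      congr 1
    show (6 : ℤ) ∣ (LinearMap.toMatrixAlgEquiv' (R := ℤ) (n := V ⊕ V)
        ((act Γ g : (V ⊕ V → ℤ) ≃ₗ[ℤ] (V ⊕ V → ℤ)) : (V ⊕ V → ℤ) →ₗ[ℤ] (V ⊕ V → ℤ)) - 1) i j
    rw [Matrix.sub_apply, h2, Matrix.one_apply]
    have h3 : (if i = j then (1 : ℤ) else 0) = (Pi.single j 1 : V ⊕ V → ℤ) i := by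
      rw [Pi.single_apply]
    rw [h3]
    exact h1

end Pool.Agent.FixChain
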