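import Mathlib
import Pool.Agent.FixChain.Stmts

set_option autoImplicit false
set_option linter.style.haveILetI false

/-!
# The untwisted subgroup of the automorphism group of a right-angled Artin group

Definitions (Laurence–Servatius generators, `UAut Γ`) and sanity lemmas: every Laurence–Servatius
generator of each type really exists as an automorphism, and two standard generators commute
exactly if they are equal or adjacent.
-/

namespace Pool.Agent.FixChain

variable {V : Type} (Γ : SimpleGraph V)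

/-- `φ` permutes the standard generators by an automorphism of the graph. -/
def IsGraphAut (φ : MulAut (RAAG Γ)) : Prop :=
  ∃ e : Γ ≃g Γ, ∀ v, φ (gen Γ v) = gen Γ (e v)

/-- `φ` is the inversion `v ↦ v⁻¹` of one standard generator. -/
def IsInversion (φ : MulAut (RAAG Γ)) : Prop :=
  ∃ v, φ (gen Γ v) = (gen Γ v)⁻¹ ∧ ∀ u, u ≠ v → φ (gen Γ u) = gen Γ u

/-- `φ` is the transvection `v ↦ v w` for the distinct vertices `v`, `w` with `lk(v) ⊆ st(w)`. -/
def IsTransvection (v w : V) (φ : MulAut (RAAG Γ)) : Prop :=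
  v ≠ w ∧ (∀ u, Γ.Adj v u → u = w ∨ Γ.Adj w u) ∧
    φ (gen Γ v) = gen Γ v * gen Γ w ∧ ∀ u, u ≠ v → φ (gen Γ u) = gen Γ u

/-- The vertices outside the star of `w`. -/
def coStar (w : V) : Set V := {u | ¬ (u = w ∨ Γ.Adj w u)}

/-- `u` lies in the component `C` of `Γ ∖ st(w)`. -/
def InComp (w : V) (C : (Γ.induce (coStar Γ w)).ConnectedComponent) (u : V) : Prop :=
  ∃ h : u ∈ coStar Γ w, (Γ.induce (coStar Γ w)).connectedComponentMk ⟨u, h⟩ = C

/-- `φ` is the partial conjugation `u ↦ w u w⁻¹` for `u` in a component of `Γ ∖ st(w)`. -/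
def IsPartialConj (φ : MulAut (RAAG Γ)) : Prop :=
  ∃ (w : V) (C : (Γ.induce (coStar Γ w)).ConnectedComponent),
    (∀ u, InComp Γ w C u → φ (gen Γ u) = gen Γ w * gen Γ u * (gen Γ w)⁻¹) ∧
    (∀ u, ¬ InComp Γ w C u → φ (gen Γ u) = gen Γ u)

/-- The untwisted subgroup of the automorphism group: generated by the graph automorphisms, the
inversions, the transvections `v ↦ v w` with `v`, `w` not adjacent, and the partial
conjugations. -/
def UAut : Subgroup (MulAut (RAAG Γ)) :=
  Subgroup.closure {φ | IsGraphAut Γ φ ∨ IsInversion Γ φ ∨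
    (∃ v w, ¬ Γ.Adj v w ∧ IsTransvection Γ v w φ) ∨ IsPartialConj Γ φ}

/-! ### Sanity lemmas -/

variable {Γ}

theorem gen_commute {v w : V} (h : Γ.Adj v w) : Commute (gen Γ v) (gen Γ w) := by
  have h1 : (PresentedGroup.mk (rels Γ)) (FreeGroup.of v * FreeGroup.of w * (FreeGroup.of v)⁻¹ *
      (FreeGroup.of w)⁻¹) = 1 := PresentedGroup.one_of_mem ⟨v, w, h, rfl⟩
  have h2 : gen Γ v * gen Γ w * (gen Γ v)⁻¹ * (gen Γ w)⁻¹ = 1 := by
    rw [map_mul, map_mul, map_mul, map_inv, map_inv] at h1
    exact h1
  rw [Commute, SemiconjBy]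
  rw [mul_inv_eq_one, mul_inv_eq_iff_eq_mul] at h2
  exact h2

/-- The homomorphism from a right-angled Artin group given by images of the standard generators. -/
def lift {H : Type} [Group H] (f : V → H) (hf : ∀ v w, Γ.Adj v w → Commute (f v) (f w)) :
    RAAG Γ →* H :=
  PresentedGroup.toGroup (f := f) (by
    rintro _ ⟨v, w, h, rfl⟩
    simp only [map_mul, map_inv, FreeGroup.lift_apply_of]
    rw [(hf v w h).eq]
    group)

@[simp] theorem lift_gen {H : Type} [Group H] (f : V → H)
    (hf : ∀ v w, Γ.Adj v w → Commute (f v) (f w)) (v : V) : lift f hf (gen Γ v) = f v :=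
  PresentedGroup.toGroup.of _

theorem hom_ext {H : Type} [Group H] {f g : RAAG Γ →* H} (h : ∀ v, f (gen Γ v) = g (gen Γ v)) :
    f = g := PresentedGroup.ext h

/-- **Sanity.** Two standard generators commute exactly if they are equal or adjacent. -/
theorem gen_commute_iff {v w : V} : Commute (gen Γ v) (gen Γ w) ↔ v = w ∨ Γ.Adj v w := by
  classical
  constructor
  · intro h
    by_contra hn
    push Not at hn
    obtain ⟨hne, hadj⟩ := hn
    let f : V → Equiv.Perm (Fin 3) := fun u =>
      if u = v then Equiv.swap 0 1 else if u = w then Equiv.swap 1 2 else 1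
    have hf : ∀ a b, Γ.Adj a b → Commute (f a) (f b) := by
      intro a b hab
      have hab' := hab.ne
      simp only [f]
      by_cases h1 : a = v
      · subst h1
        have h2 : b ≠ a := hab'.symm
        have h3 : b ≠ w := fun h => hadj (h ▸ hab)
        rw [if_neg h2, if_neg h3]
        exact Commute.one_right _
      · by_cases h2 : a = w
        · subst h2
          have h3 : b ≠ v := fun h => hadj (h ▸ hab.symm)
          rw [if_neg h3, if_neg hab'.symm]
          exact Commute.one_right _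
        · rw [if_neg h1, if_neg h2]
          exact Commute.one_left _
    have h1 := h.map (lift f hf)
    rw [lift_gen, lift_gen] at h1
    have h2 : f v = Equiv.swap 0 1 := if_pos rfl
    have h3 : f w = Equiv.swap 1 2 := by
      show (if w = v then _ else if w = w then _ else _) = _
      rw [if_neg (Ne.symm hne), if_pos rfl]
    rw [h2, h3] at h1
    have h4 := congrArg (fun e : Equiv.Perm (Fin 3) => e 0) h1.eq
    revert h4
    decide
  · rintro (rfl | h)
    · exact Commute.refl _
    · exact gen_commute h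

/-- The automorphism given by images of the generators and their inverses. -/
def mkAut (f g : V → RAAG Γ) (hf : ∀ v w, Γ.Adj v w → Commute (f v) (f w))
    (hg : ∀ v w, Γ.Adj v w → Commute (g v) (g w))
    (hfg : ∀ v, lift f hf (g v) = gen Γ v) (hgf : ∀ v, lift g hg (f v) = gen Γ v) :
    MulAut (RAAG Γ) :=
  MonoidHom.toMulEquiv (lift f hf) (lift g hg)
    (hom_ext (fun v => by
      rw [MonoidHom.comp_apply, lift_gen]
      exact hgf v))
    (hom_ext (fun v => by
      rw [MonoidHom.comp_apply, lift_gen]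
      exact hfg v))

theorem mkAut_gen (f g : V → RAAG Γ) (hf : ∀ v w, Γ.Adj v w → Commute (f v) (f w))
    (hg : ∀ v w, Γ.Adj v w → Commute (g v) (g w))
    (hfg : ∀ v, lift f hf (g v) = gen Γ v) (hgf : ∀ v, lift g hg (f v) = gen Γ v) (v : V) :
    mkAut f g hf hg hfg hgf (gen Γ v) = f v := lift_gen f hf v

/-- **Sanity.** Every automorphism of the graph gives an element of `UAut Γ`. -/
theorem exists_graphAut (e : Γ ≃g Γ) : ∃ φ ∈ UAut Γ, ∀ v, φ (gen Γ v) = gen Γ (e v) := by
  let φ := mkAut (Γ := Γ) (fun v => gen Γ (e v)) (fun v => gen Γ (e.symm v))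
    (fun v w h => gen_commute (e.map_adj_iff.mpr h))
    (fun v w h => gen_commute (e.symm.map_adj_iff.mpr h))
    (fun v => by rw [lift_gen]; simp) (fun v => by rw [lift_gen]; simp)
  have h : ∀ v, φ (gen Γ v) = gen Γ (e v) := fun v => mkAut_gen _ _ _ _ _ _ v
  exact ⟨φ, Subgroup.subset_closure (Or.inl ⟨e, h⟩), h⟩

/-- **Sanity.** Every inversion exists. -/
theorem exists_inversion (v : V) : ∃ φ ∈ UAut Γ, φ (gen Γ v) = (gen Γ v)⁻¹ ∧
    ∀ u, u ≠ v → φ (gen Γ u) = gen Γ u := by
  classical
  let f : V → RAAG Γ := fun u => if u = v then (gen Γ v)⁻¹ else gen Γ u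
  have hf : ∀ a b, Γ.Adj a b → Commute (f a) (f b) := by
    intro a b hab
    simp only [f]
    by_cases h1 : a = v
    · subst h1
      rw [if_pos rfl, if_neg hab.ne']
      exact (gen_commute hab).inv_left
    · by_cases h2 : b = v
      · subst h2
        rw [if_neg h1, if_pos rfl]
        exact (gen_commute hab).inv_right
      · rw [if_neg h1, if_neg h2]
        exact gen_commute hab
  have hff : ∀ u, lift f hf (f u) = gen Γ u := by
    intro u
    by_cases h : u = v
    · subst h
      have : f u = (gen Γ u)⁻¹ := if_pos rfl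
      rw [this, map_inv, lift_gen, this, inv_inv]
    · have : f u = gen Γ u := if_neg h
      rw [this, lift_gen, this]
  have h1 : ∀ u, mkAut f f hf hf hff hff (gen Γ u) = f u := fun u => mkAut_gen _ _ _ _ _ _ u
  have h2 : mkAut f f hf hf hff hff (gen Γ v) = (gen Γ v)⁻¹ := by rw [h1]; exact if_pos rfl
  have h3 : ∀ u, u ≠ v → mkAut f f hf hf hff hff (gen Γ u) = gen Γ u := by
    intro u hu
    rw [h1]
    exact if_neg hu
  exact ⟨_, Subgroup.subset_closure (Or.inr (Or.inl ⟨v, h2, h3⟩)), h2, h3⟩

/-- **Sanity.** Every transvection `v ↦ v w`, `v ≠ w`, `lk(v) ⊆ st(w)`, exists; it lies in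
`UAut Γ` if `v` and `w` are not adjacent. -/
theorem exists_transvection (v w : V) (hvw : v ≠ w) (hlk : ∀ u, Γ.Adj v u → u = w ∨ Γ.Adj w u) :
    ∃ φ : MulAut (RAAG Γ), IsTransvection Γ v w φ ∧ (¬ Γ.Adj v w → φ ∈ UAut Γ) := by
  classical
  have main : ∀ (x : RAAG Γ), (x = gen Γ w ∨ x = (gen Γ w)⁻¹) →
      ∀ a b, Γ.Adj a b → Commute (if a = v then gen Γ v * x else gen Γ a)
        (if b = v then gen Γ v * x else gen Γ b) := by
    intro x hx a b hab
    have hcx : ∀ u, Γ.Adj v u → Commute (gen Γ u) x := by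
      intro u hu
      have h1 : Commute (gen Γ u) (gen Γ w) := by
        rcases hlk u hu with rfl | h
        · exact Commute.refl _
        · exact (gen_commute h).symm
      rcases hx with rfl | rfl
      · exact h1
      · exact h1.inv_right
    by_cases h1 : a = v
    · subst h1
      rw [if_pos rfl, if_neg hab.ne']
      exact (Commute.mul_right (gen_commute hab).symm (hcx b hab)).symm
    · by_cases h2 : b = v
      · subst h2
        rw [if_neg h1, if_pos rfl]
        exact Commute.mul_right (gen_commute hab) (hcx a hab.symm)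
      · rw [if_neg h1, if_neg h2]
        exact gen_commute hab
  let f : V → RAAG Γ := fun u => if u = v then gen Γ v * gen Γ w else gen Γ u
  let g : V → RAAG Γ := fun u => if u = v then gen Γ v * (gen Γ w)⁻¹ else gen Γ u
  have hf := main _ (Or.inl rfl)
  have hg := main _ (Or.inr rfl)
  have hfg : ∀ u, lift f hf (g u) = gen Γ u := by
    intro u
    by_cases h : u = v
    · subst h
      have h1 : g u = gen Γ u * (gen Γ w)⁻¹ := if_pos rfl
      have h2 : f u = gen Γ u * gen Γ w := if_pos rfl
      have h3 : f w = gen Γ w := if_neg (Ne.symm hvw)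
      rw [h1, map_mul, map_inv, lift_gen, lift_gen, h2, h3, mul_inv_cancel_right]
    · have h1 : g u = gen Γ u := if_neg h
      have h2 : f u = gen Γ u := if_neg h
      rw [h1, lift_gen, h2]
  have hgf : ∀ u, lift g hg (f u) = gen Γ u := by
    intro u
    by_cases h : u = v
    · subst h
      have h1 : g u = gen Γ u * (gen Γ w)⁻¹ := if_pos rfl
      have h2 : f u = gen Γ u * gen Γ w := if_pos rfl
      have h3 : g w = gen Γ w := if_neg (Ne.symm hvw)
      rw [h2, map_mul, lift_gen, lift_gen, h1, h3, inv_mul_cancel_right]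
    · have h1 : g u = gen Γ u := if_neg h
      have h2 : f u = gen Γ u := if_neg h
      rw [h2, lift_gen, h1]
  have h1 : ∀ u, mkAut f g hf hg hfg hgf (gen Γ u) = f u := fun u => mkAut_gen _ _ _ _ _ _ u
  have h2 : IsTransvection Γ v w (mkAut f g hf hg hfg hgf) := by
    refine ⟨hvw, hlk, ?_, ?_⟩
    · rw [h1]
      exact if_pos rfl
    · intro u hu
      rw [h1]
      exact if_neg hu
  exact ⟨_, h2, fun hadj =>
    Subgroup.subset_closure (Or.inr (Or.inr (Or.inl ⟨v, w, hadj, h2⟩)))⟩

/-- **Sanity.** Every partial conjugation exists. -/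
theorem exists_partialConj (w : V) (C : (Γ.induce (coStar Γ w)).ConnectedComponent) :
    ∃ φ ∈ UAut Γ, (∀ u, InComp Γ w C u → φ (gen Γ u) = gen Γ w * gen Γ u * (gen Γ w)⁻¹) ∧
      (∀ u, ¬ InComp Γ w C u → φ (gen Γ u) = gen Γ u) := by
  classical
  have hw : ¬ InComp Γ w C w := by
    rintro ⟨h, _⟩
    exact h (Or.inl rfl)
  -- a neighbour of the component lies in the component or in the link of `w`
  have hnb : ∀ a b, Γ.Adj a b → InComp Γ w C a → ¬ InComp Γ w C b → Γ.Adj w b := by
    intro a b hab ha hb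
    by_contra hwb
    obtain ⟨ha1, ha2⟩ := ha
    have hbw : b ≠ w := by
      rintro rfl
      exact ha1 (Or.inr hab.symm)
    have hb1 : b ∈ coStar Γ w := fun h => h.elim hbw hwb
    apply hb
    refine ⟨hb1, ?_⟩
    rw [← ha2]
    apply SimpleGraph.ConnectedComponent.sound
    apply SimpleGraph.Adj.reachable
    exact hab.symm
  have main : ∀ (x : RAAG Γ), (x = gen Γ w ∨ x = (gen Γ w)⁻¹) →
      ∀ a b, Γ.Adj a b → Commute (if InComp Γ w C a then x * gen Γ a * x⁻¹ else gen Γ a)
        (if InComp Γ w C b then x * gen Γ b * x⁻¹ else gen Γ b) := by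
    intro x hx a b hab
    have hconj : ∀ a b, Γ.Adj a b → InComp Γ w C a → ¬ InComp Γ w C b →
        Commute (x * gen Γ a * x⁻¹) (gen Γ b) := by
      intro a b hab ha hb
      have h1 : Commute x (gen Γ b) := by
        have h1 := gen_commute (hnb a b hab ha hb)
        rcases hx with rfl | rfl
        · exact h1
        · exact h1.inv_left
      exact (h1.mul_left (gen_commute hab)).mul_left h1.inv_left
    by_cases h1 : InComp Γ w C a
    · by_cases h2 : InComp Γ w C b
      · rw [if_pos h1, if_pos h2]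
        have h3 := (gen_commute hab).map (MulAut.conj x).toMonoidHom
        exact h3
      · rw [if_pos h1, if_neg h2]
        exact hconj a b hab h1 h2
    · by_cases h2 : InComp Γ w C b
      · rw [if_neg h1, if_pos h2]
        exact (hconj b a hab.symm h2 h1).symm
      · rw [if_neg h1, if_neg h2]
        exact gen_commute hab
  let f : V → RAAG Γ := fun u =>
    if InComp Γ w C u then gen Γ w * gen Γ u * (gen Γ w)⁻¹ else gen Γ u
  let g : V → RAAG Γ := fun u =>
    if InComp Γ w C u then (gen Γ w)⁻¹ * gen Γ u * ((gen Γ w)⁻¹)⁻¹ else gen Γ u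
  have hf : ∀ a b, Γ.Adj a b → Commute (f a) (f b) := main _ (Or.inl rfl)
  have hg : ∀ a b, Γ.Adj a b → Commute (g a) (g b) := main _ (Or.inr rfl)
  have hfw : f w = gen Γ w := if_neg hw
  have hgw : g w = gen Γ w := if_neg hw
  have hfg : ∀ u, lift f hf (g u) = gen Γ u := by
    intro u
    by_cases h : InComp Γ w C u
    · have h1 : g u = (gen Γ w)⁻¹ * gen Γ u * ((gen Γ w)⁻¹)⁻¹ := if_pos h
      have h2 : f u = gen Γ w * gen Γ u * (gen Γ w)⁻¹ := if_pos h
      rw [h1]
      simp only [map_mul, map_inv, lift_gen]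
      rw [h2, hfw]
      group
    · have h1 : g u = gen Γ u := if_neg h
      have h2 : f u = gen Γ u := if_neg h
      rw [h1, lift_gen, h2]
  have hgf : ∀ u, lift g hg (f u) = gen Γ u := by
    intro u
    by_cases h : InComp Γ w C u
    · have h1 : g u = (gen Γ w)⁻¹ * gen Γ u * ((gen Γ w)⁻¹)⁻¹ := if_pos h
      have h2 : f u = gen Γ w * gen Γ u * (gen Γ w)⁻¹ := if_pos h
      rw [h2]
      simp only [map_mul, map_inv, lift_gen]
      rw [h1, hgw]
      group
    · have h1 : g u = gen Γ u := if_neg h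
      have h2 : f u = gen Γ u := if_neg h
      rw [h2, lift_gen, h1]
  have h1 : ∀ u, mkAut f g hf hg hfg hgf (gen Γ u) = f u := fun u => mkAut_gen _ _ _ _ _ _ u
  have h2 : ∀ u, InComp Γ w C u → mkAut f g hf hg hfg hgf (gen Γ u) =
      gen Γ w * gen Γ u * (gen Γ w)⁻¹ := by
    intro u hu
    rw [h1]
    exact if_pos hu
  have h3 : ∀ u, ¬ InComp Γ w C u → mkAut f g hf hg hfg hgf (gen Γ u) = gen Γ u := by
    intro u hu
    rw [h1]
    exact if_neg hu
  exact ⟨_, Subgroup.subset_closure (Or.inr (Or.inr (Or.inr ⟨w, C, h2, h3⟩))), h2, h3⟩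

end Pool.Agent.FixChain
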